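import Mathlib

/-!
List assignments on the complete bipartite graph `K_{n,n}`.
The edge joining the left vertex `i` to the right vertex `j` is the pair `(i, j)`; the colours are
the elements of `Fin n`.
-/

namespace Pool.Agent.H178Z.Avoid

open Finset

/-- A list assignment for `K_{n,n}`: the edge `(i, j)` gets the set `L i j` of forbidden colours. -/
abbrev ListAssignment (n : ℕ) : Type := Fin n → Fin n → Finset (Fin n)

/-- A proper `n`-edge colouring of `K_{n,n}`: two distinct edges sharing a left vertex, or sharing
a right vertex, get different colours. -/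
def IsProper {n : ℕ} (f : Fin n → Fin n → Fin n) : Prop :=
  (∀ i j j', j ≠ j' → f i j ≠ f i j') ∧ (∀ i i' j, i ≠ i' → f i j ≠ f i' j)

/-- `L` is `β`-sparse: every list has at most `β n` colours, and at every vertex (left or right)
every colour is forbidden on at most `β n` incident edges. -/
def Sparse {n : ℕ} (β : ℝ) (L : ListAssignment n) : Prop :=
  (∀ i j, ((L i j).card : ℝ) ≤ β * n) ∧
  (∀ i c, ((univ.filter fun j => c ∈ L i j).card : ℝ) ≤ β * n) ∧
  (∀ j c, ((univ.filter fun i => c ∈ L i j).card : ℝ) ≤ β * n)

/-- `L` is avoidable: some proper `n`-edge colouring uses no forbidden colour. -/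
def Avoidable {n : ℕ} (L : ListAssignment n) : Prop :=
  ∃ f : Fin n → Fin n → Fin n, IsProper f ∧ ∀ i j, f i j ∉ L i j

end Pool.Agent.H178Z.Avoid
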