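import Pool.Agent.H178Z.AvoidDefs

namespace Pool.Agent.H178Z.Avoid

open Finset

abbrev V : Type := ZMod 2 × ZMod 2

def q (x : V) : ZMod 2 := x.1 + x.2 + x.1 * x.2

def w (x y : V) : ZMod 2 := x.1 * y.2 + x.2 * y.1

lemma key : ∀ x y z : V, x + y + z ≠ 0 →
    1 + q x + q y + q z + w x y + w x z + w y z = 0 := by
  decide

lemma w_sum_left {ι : Type*} (s : Finset ι) (a : ι → V) (y : V) :
    ∑ i ∈ s, w (a i) y = w (∑ i ∈ s, a i) y := by
  simp only [w, Prod.fst_sum, Prod.snd_sum, Finset.sum_add_distrib, Finset.sum_mul]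

lemma w_sum_right {ι : Type*} (s : Finset ι) (x : V) (a : ι → V) :
    ∑ i ∈ s, w x (a i) = w x (∑ i ∈ s, a i) := by
  simp only [w, Prod.fst_sum, Prod.snd_sum, Finset.sum_add_distrib, Finset.mul_sum]

lemma parity {n : ℕ} (a b c : Fin n → V) (f : Fin n → Fin n → Fin n) (hf : IsProper f)
    (h : ∀ i j, a i + b j + c (f i j) ≠ 0) :
    (n : ZMod 2) * n + n * (∑ i, q (a i)) + n * (∑ i, q (b i)) + n * (∑ i, q (c i))
      + w (∑ i, a i) (∑ i, b i) + w (∑ i, a i) (∑ i, c i) + w (∑ i, b i) (∑ i, c i) = 0 := by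
  have hrow : ∀ i, Function.Bijective (fun j => f i j) := fun i =>
    Finite.injective_iff_bijective.mp (fun j j' hjj => by
      by_contra hne
      exact hf.1 i j j' hne hjj)
  have hcol : ∀ j, Function.Bijective (fun i => f i j) := fun j =>
    Finite.injective_iff_bijective.mp (fun i i' hii => by
      by_contra hne
      exact hf.2 i i' j hne hii)
  have h0 : ∑ i, ∑ j, (1 + q (a i) + q (b j) + q (c (f i j)) + w (a i) (b j)
      + w (a i) (c (f i j)) + w (b j) (c (f i j))) = 0 := by
    apply Finset.sum_eq_zero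
    intro i _
    apply Finset.sum_eq_zero
    intro j _
    exact key _ _ _ (h i j)
  simp only [Finset.sum_add_distrib] at h0
  have e1 : ∑ _i : Fin n, ∑ _j : Fin n, (1 : ZMod 2) = (n : ZMod 2) * n := by
    simp
  have e2 : ∑ i : Fin n, ∑ _j : Fin n, q (a i) = n * ∑ i, q (a i) := by
    simp [Finset.mul_sum]
  have e3 : ∑ _i : Fin n, ∑ j : Fin n, q (b j) = n * ∑ i, q (b i) := by
    simp
  have e4 : ∑ i : Fin n, ∑ j : Fin n, q (c (f i j)) = n * ∑ i, q (c i) := by
    have : ∀ i, ∑ j : Fin n, q (c (f i j)) = ∑ k, q (c k) := fun i =>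
      (hrow i).sum_comp (fun k => q (c k))
    simp [this]
  have e5 : ∑ i : Fin n, ∑ j : Fin n, w (a i) (b j) = w (∑ i, a i) (∑ i, b i) := by
    simp only [w_sum_right, w_sum_left]
  have e6 : ∑ i : Fin n, ∑ j : Fin n, w (a i) (c (f i j)) = w (∑ i, a i) (∑ i, c i) := by
    have : ∀ i, ∑ j : Fin n, w (a i) (c (f i j)) = ∑ k, w (a i) (c k) := fun i =>
      (hrow i).sum_comp (fun k => w (a i) (c k))
    simp only [this]
    simp only [w_sum_right, w_sum_left]
  have e7 : ∑ i : Fin n, ∑ j : Fin n, w (b j) (c (f i j)) = w (∑ i, b i) (∑ i, c i) := by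
    rw [Finset.sum_comm]
    have : ∀ j, ∑ i : Fin n, w (b j) (c (f i j)) = ∑ k, w (b j) (c k) := fun j =>
      (hcol j).sum_comp (fun k => w (b j) (c k))
    simp only [this]
    simp only [w_sum_right, w_sum_left]
  rw [e1, e2, e3, e4, e5, e6, e7] at h0
  exact h0

/-- Type assignments with `M` full blocks and a prescribed tail. -/
lemma exists_types (n M r μ : ℕ) (hn : n = 4 * M + r) (τ : Fin r → V)
    (hτ : ∀ x, (univ.filter fun i => τ i = x).card ≤ μ) :
    ∃ a : Fin n → V, (∀ x, (univ.filter fun i => a i = x).card ≤ M + μ) ∧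
      ∑ i, a i = ∑ i, τ i ∧ ∑ i, q (a i) = M + ∑ i, q (τ i) := by
  have hc : Fintype.card ((V × Fin M) ⊕ Fin r) = n := by
    simp [hn]
  let e : ((V × Fin M) ⊕ Fin r) ≃ Fin n := Fintype.equivFinOfCardEq hc
  let a' : ((V × Fin M) ⊕ Fin r) → V := Sum.elim Prod.fst τ
  refine ⟨a' ∘ e.symm, ?_, ?_, ?_⟩
  · intro x
    have h1 : (univ.filter fun i => (a' ∘ e.symm) i = x).card
        = (univ.filter fun y => a' y = x).card := by
      apply Finset.card_bijective e.symm e.symm.bijective
      intro i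
      simp
    rw [h1, Finset.card_filter, Fintype.sum_sum_type]
    have h2 : ∑ y : V × Fin M, (if a' (Sum.inl y) = x then 1 else 0) = M := by
      rw [Fintype.sum_prod_type, Finset.sum_comm]
      show ∑ _y : Fin M, ∑ z : V, (if z = x then 1 else 0) = M
      simp
    have h3 : ∑ y : Fin r, (if a' (Sum.inr y) = x then 1 else 0) ≤ μ := by
      have := hτ x
      rw [Finset.card_filter] at this
      exact this
    omega
  · have h1 : ∑ i, (a' ∘ e.symm) i = ∑ y, a' y := e.symm.sum_comp a'
    rw [h1, Fintype.sum_sum_type, Fintype.sum_prod_type]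
    have h2 : ∑ x : V, ∑ _y : Fin M, x = 0 := by
      rw [Finset.sum_comm]
      have : ∑ x : V, x = 0 := by decide
      simp [this]
    simp only [a', Sum.elim_inl, Sum.elim_inr, h2, zero_add]
  · have h1 : ∑ i, q ((a' ∘ e.symm) i) = ∑ y, q (a' y) := e.symm.sum_comp (fun y => q (a' y))
    rw [h1, Fintype.sum_sum_type, Fintype.sum_prod_type]
    have h2 : ∑ x : V, ∑ _y : Fin M, q x = M := by
      rw [Finset.sum_comm]
      have : ∑ x : V, q x = 1 := by decide
      simp [this]
    simp only [a', Sum.elim_inl, Sum.elim_inr, h2]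

lemma build {n m : ℕ} (a b c : Fin n → V)
    (ha : ∀ x, (univ.filter fun i => a i = x).card ≤ m)
    (hb : ∀ x, (univ.filter fun i => b i = x).card ≤ m)
    (hc : ∀ x, (univ.filter fun i => c i = x).card ≤ m)
    (hT : (n : ZMod 2) * n + n * (∑ i, q (a i)) + n * (∑ i, q (b i)) + n * (∑ i, q (c i))
      + w (∑ i, a i) (∑ i, b i) + w (∑ i, a i) (∑ i, c i) + w (∑ i, b i) (∑ i, c i) ≠ 0)
    (β : ℝ) (hβ : (m : ℝ) ≤ β * n) :
    ∃ L : ListAssignment n, Sparse β L ∧ ¬ Avoidable L := by
  refine ⟨fun i j => univ.filter fun k => a i + b j + c k = 0, ⟨?_, ?_, ?_⟩, ?_⟩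
  · intro i j
    refine le_trans ?_ hβ
    have : (univ.filter fun k => a i + b j + c k = 0) = univ.filter fun k => c k = -(a i + b j) := by
      apply Finset.filter_congr
      intro k _
      constructor
      · intro h
        exact eq_neg_of_add_eq_zero_right h
      · intro h
        rw [h]
        abel
    beta_reduce
    rw [this]
    exact_mod_cast hc _
  · intro i k
    refine le_trans ?_ hβ
    have : (univ.filter fun j => k ∈ univ.filter fun k => a i + b j + c k = 0)
        = univ.filter fun j => b j = -(a i + c k) := by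
      apply Finset.filter_congr
      intro j _
      simp only [Finset.mem_filter, Finset.mem_univ, true_and]
      constructor
      · intro h
        apply eq_neg_of_add_eq_zero_right
        rw [← h]
        abel
      · intro h
        rw [h]
        abel
    rw [this]
    exact_mod_cast hb _
  · intro j k
    refine le_trans ?_ hβ
    have : (univ.filter fun i => k ∈ univ.filter fun k => a i + b j + c k = 0)
        = univ.filter fun i => a i = -(b j + c k) := by
      apply Finset.filter_congr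
      intro i _
      simp only [Finset.mem_filter, Finset.mem_univ, true_and]
      constructor
      · intro h
        apply eq_neg_of_add_eq_zero_right
        rw [← h]
        abel
      · intro h
        rw [h]
        abel
    rw [this]
    exact_mod_cast ha _
  · rintro ⟨f, hf, hL⟩
    apply hT
    apply parity a b c f hf
    intro i j h
    exact hL i j (by simp [h])

lemma main_of_tails (n M r μ : ℕ) (hn : n = 4 * M + r) (τa τb τc : Fin r → V)
    (ha : ∀ x, (univ.filter fun i => τa i = x).card ≤ μ)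
    (hb : ∀ x, (univ.filter fun i => τb i = x).card ≤ μ)
    (hc : ∀ x, (univ.filter fun i => τc i = x).card ≤ μ)
    (hT : (r : ZMod 2) * r + r * ((M : ZMod 2) + ∑ i, q (τa i)) + r * (M + ∑ i, q (τb i))
      + r * (M + ∑ i, q (τc i))
      + w (∑ i, τa i) (∑ i, τb i) + w (∑ i, τa i) (∑ i, τc i) + w (∑ i, τb i) (∑ i, τc i) ≠ 0)
    (β : ℝ) (hβ : ((M + μ : ℕ) : ℝ) ≤ β * n) :
    ∃ L : ListAssignment n, Sparse β L ∧ ¬ Avoidable L := by
  obtain ⟨a, ha1, ha2, ha3⟩ := exists_types n M r μ hn τa ha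
  obtain ⟨b, hb1, hb2, hb3⟩ := exists_types n M r μ hn τb hb
  obtain ⟨c, hc1, hc2, hc3⟩ := exists_types n M r μ hn τc hc
  apply build a b c ha1 hb1 hc1 _ β hβ
  rw [ha2, ha3, hb2, hb3, hc2, hc3]
  have : (n : ZMod 2) = r := by
    rw [hn]
    push_cast
    have : (4 : ZMod 2) = 0 := by decide
    rw [this]
    ring
  rw [this]
  exact hT

theorem unavoidable (n : ℕ) (hn : 1 ≤ n) (β : ℝ) (hβ : ((n / 4 + 1 : ℕ) : ℝ) ≤ β * n) :
    ∃ L : ListAssignment n, Sparse β L ∧ ¬ Avoidable L := by
  have hM : ∀ M : ℕ, (M : ZMod 2) = 0 ∨ (M : ZMod 2) = 1 := fun M => by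
    generalize (M : ZMod 2) = x
    revert x
    decide
  have h4 : n % 4 = 0 ∨ n % 4 = 1 ∨ n % 4 = 2 ∨ n % 4 = 3 := by omega
  rcases h4 with h | h | h | h
  · refine main_of_tails n (n / 4 - 1) 4 2 (by omega)
      ![(1, 0), (1, 0), (0, 1), (1, 1)] ![(0, 1), (0, 1), (1, 0), (1, 1)]
      ![(0, 0), (0, 1), (1, 0), (1, 1)] (by decide) (by decide) (by decide) ?_ β ?_
    · rcases hM (n / 4 - 1) with h' | h' <;> rw [h'] <;> decide
    · have : n / 4 - 1 + 2 = n / 4 + 1 := by omega
      rw [this]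
      exact hβ
  · rcases hM (n / 4) with h' | h'
    · refine main_of_tails n (n / 4) 1 1 (by omega)
        ![(0, 0)] ![(0, 0)] ![(0, 0)] (by decide) (by decide) (by decide) ?_ β hβ
      rw [h']
      decide
    · refine main_of_tails n (n / 4) 1 1 (by omega)
        ![(0, 0)] ![(0, 0)] ![(0, 1)] (by decide) (by decide) (by decide) ?_ β hβ
      rw [h']
      decide
  · refine main_of_tails n (n / 4) 2 1 (by omega)
      ![(0, 0), (1, 0)] ![(0, 0), (0, 1)] ![(0, 0), (1, 1)]
      (by decide) (by decide) (by decide) ?_ β hβ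
    rcases hM (n / 4) with h' | h' <;> rw [h'] <;> decide
  · rcases hM (n / 4) with h' | h'
    · refine main_of_tails n (n / 4) 3 1 (by omega)
        ![(0, 1), (1, 0), (1, 1)] ![(0, 1), (1, 0), (1, 1)] ![(0, 0), (1, 0), (1, 1)]
        (by decide) (by decide) (by decide) ?_ β hβ
      rw [h']
      decide
    · refine main_of_tails n (n / 4) 3 1 (by omega)
        ![(0, 1), (1, 0), (1, 1)] ![(0, 1), (1, 0), (1, 1)] ![(0, 1), (1, 0), (1, 1)]
        (by decide) (by decide) (by decide) ?_ β hβ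
      rw [h']
      decide

/-- Corollary: every constant `β` that works for all large `n` is at most `1/4`. -/
theorem le_quarter (N : ℕ) (β : ℝ)
    (h : ∀ n, N ≤ n → 1 ≤ n → ∀ L : ListAssignment n, Sparse β L → Avoidable L) : β ≤ 1 / 4 := by
  by_contra hlt
  push Not at hlt
  obtain ⟨k, hk⟩ := exists_nat_ge (1 / (β - 1 / 4))
  have hpos : 0 < β - 1 / 4 := by linarith
  set n := max (max N 1) k with hn
  have h1 : N ≤ n := by omega
  have h2 : 1 ≤ n := by omega
  have h3 : (k : ℝ) ≤ n := by exact_mod_cast (by omega : k ≤ n)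
  have h4 : ((n / 4 + 1 : ℕ) : ℝ) ≤ β * n := by
    have h5 : ((n / 4 : ℕ) : ℝ) ≤ (n : ℝ) / 4 := by
      have := Nat.cast_div_le (α := ℝ) (m := n) (n := 4)
      simpa using this
    have h6 : 1 ≤ (β - 1 / 4) * n := by
      have : 1 / (β - 1 / 4) ≤ n := le_trans hk h3
      rw [div_le_iff₀ hpos] at this
      linarith
    push_cast
    nlinarith
  obtain ⟨L, hL, hA⟩ := unavoidable n h2 β h4
  exact hA (h n h1 h2 L hL)

end Pool.Agent.H178Z.Avoid
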