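import Mathlib

/-!
Box complex of a finite graph, coindex, 2-colorability defect, Kneser representations.
The vertex `+v` of the box complex is `(v, true)` and `-v` is `(v, false)`.
-/

namespace Pool.Agent.H178Z.Box

/-- Common neighbours of a vertex set; `CN G ∅` is the whole vertex set. -/
def CN {V : Type*} (G : SimpleGraph V) (A : Set V) : Set V := {v | ∀ a ∈ A, G.Adj a v}

/-- `σ = A' ⊎ A''` is a simplex of the box complex `B(G)`, where `A' = {v | +v ∈ σ}` and
`A'' = {v | -v ∈ σ}`. -/
def IsBoxSimplex {V : Type*} (G : SimpleGraph V) (σ : Set (V × Bool)) : Prop :=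
  Disjoint {v | (v, true) ∈ σ} {v | (v, false) ∈ σ} ∧
  (∀ a b, (a, true) ∈ σ → (b, false) ∈ σ → G.Adj a b) ∧
  (CN G {v | (v, true) ∈ σ}).Nonempty ∧ (CN G {v | (v, false) ∈ σ}).Nonempty

/-- The geometric realisation of `B(G)`: barycentric coordinate vectors (nonnegative, sum one)
whose support is a simplex, with the topology induced from `ℝ^(V × Bool)`. -/
abbrev BoxSpace {V : Type*} [Fintype V] (G : SimpleGraph V) : Type _ :=
  {x : V × Bool → ℝ // (∀ p, 0 ≤ x p) ∧ ∑ p, x p = 1 ∧ IsBoxSimplex G {p | x p ≠ 0}}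

/-- The `ℤ₂`-action `+v ↔ -v` on the geometric realisation of `B(G)`. -/
def boxSwap {V : Type*} [Fintype V] (G : SimpleGraph V) (x : BoxSpace G) : BoxSpace G :=
  ⟨fun p => x.1 (p.1, !p.2), fun _ => x.2.1 _, by
    refine Eq.trans ?_ x.2.2.1
    rw [Fintype.sum_prod_type, Fintype.sum_prod_type]
    simp [add_comm], x.2.2.2.1.symm, fun a b ha hb => (x.2.2.2.2.1 b a hb ha).symm,
    x.2.2.2.2.2.2, x.2.2.2.2.2.1⟩

/-- The coindex of a space `X` with the involution `ν`: the supremum of `-1` and all `d` such that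
there is a continuous map `f : S^d → X` with `f (-x) = ν (f x)`, where `S^d` is the unit sphere of
the Euclidean space `ℝ^(d+1)`. -/
noncomputable def coind {X : Type*} [TopologicalSpace X] (ν : X → X) : EReal :=
  sSup ({-1} ∪ {r | ∃ d : ℕ, r = (d : EReal) ∧
    ∃ f : C(Metric.sphere (0 : EuclideanSpace ℝ (Fin (d + 1))) 1, X), ∀ x, f (-x) = ν (f x)})

/-- After deleting the vertex set `U` and all edges meeting it, the hypergraph with edge set `E`
is 2-colorable: no remaining edge is monochromatic. -/
def TwoColorableOff {W : Type*} (E : Finset (Finset W)) (U : Finset W) : Prop :=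
  ∃ c : {w : W // w ∉ U} → Bool, ∀ e ∈ E, Disjoint e U →
    ¬ ∃ b : Bool, ∀ w : {w : W // w ∉ U}, w.1 ∈ e → c w = b

/-- The 2-colorability defect of the hypergraph with vertex set `W` and edge set `E`. -/
noncomputable def cd {W : Type*} (E : Finset (Finset W)) : EReal :=
  sInf {r | ∃ U : Finset W, r = (U.card : EReal) ∧ TwoColorableOff E U}

/-- `φ` is a bijection from the vertices of `G` onto the edge set `E` of a hypergraph (all edges
nonempty) such that two distinct vertices are adjacent exactly when their images are disjoint. -/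
def IsKneserRep {V W : Type*} (G : SimpleGraph V) (E : Finset (Finset W)) (φ : V → Finset W) :
    Prop :=
  (∀ e ∈ E, e.Nonempty) ∧ Function.Injective φ ∧ (∀ e, e ∈ E ↔ ∃ v, φ v = e) ∧
  ∀ u v, u ≠ v → (G.Adj u v ↔ Disjoint (φ u) (φ v))

end Pool.Agent.H178Z.Box
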