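import Pool.Agent.H178Z.BoxDefs

namespace Pool.Agent.H178Z.Box

open Finset Polynomial

section

variable {W : Type*} {d : ℕ}

/-- Evaluation at the node `τ w` of the polynomial without constant term with coefficients `x`. -/
noncomputable def P (τ : W → ℝ) (x : EuclideanSpace ℝ (Fin (d + 1))) (w : W) : ℝ :=
  ∑ i : Fin (d + 1), x i * τ w ^ (i.1 + 1)

lemma P_neg (τ : W → ℝ) (x : EuclideanSpace ℝ (Fin (d + 1))) (w : W) :
    P τ (-x) w = - P τ x w := by
  simp [P]

lemma P_cont (τ : W → ℝ) (w : W) :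
    Continuous fun x : EuclideanSpace ℝ (Fin (d + 1)) => P τ x w := by
  unfold P
  fun_prop

lemma zeros_card [Fintype W] (τ : W → ℝ) (hτ : Function.Injective τ)
    (x : EuclideanSpace ℝ (Fin (d + 1))) (hx : x ≠ 0) (s : ℝ) (U : Finset W)
    (hU : ∀ w ∈ U, P τ x w + s = 0) : U.card ≤ d + 1 := by
  classical
  by_contra hlt
  push Not at hlt
  let p : ℝ[X] := ∑ i : Fin (d + 1), monomial (i.1 + 1) (x i) + C s
  have hdeg : p.natDegree ≤ d + 1 := by
    refine le_trans (natDegree_add_le _ _) (max_le ?_ (by simp))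
    apply natDegree_sum_le_of_forall_le
    intro i _
    refine le_trans (natDegree_monomial_le _) ?_
    have := i.2
    omega
  have hp : p = 0 := by
    apply eq_zero_of_natDegree_lt_card_of_eval_eq_zero' p (U.image τ)
    · intro t ht
      obtain ⟨w, hw, rfl⟩ := Finset.mem_image.mp ht
      have := hU w hw
      simpa [p, P, eval_finsetSum] using this
    · rw [Finset.card_image_of_injective _ hτ]
      omega
  apply hx
  ext i
  have h := congrArg (fun r : ℝ[X] => r.coeff (i.1 + 1)) hp
  simp only [p, coeff_add, finsetSum_coeff, coeff_monomial, coeff_C_succ, add_zero,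
    coeff_zero] at h
  rw [Finset.sum_eq_single i] at h
  · simpa using h
  · intro j _ hj
    rw [if_neg]
    intro h'
    apply hj
    ext
    omega
  · simp

end

theorem exists_map {V W : Type*} [Fintype V] [Fintype W] (G : SimpleGraph V)
    (E : Finset (Finset W)) (φ : V → Finset W) (hφ : IsKneserRep G E φ) (d : ℕ)
    (hcd : ∀ U : Finset W, U.card ≤ d + 1 → ¬ TwoColorableOff E U) :
    ∃ f : C(Metric.sphere (0 : EuclideanSpace ℝ (Fin (d + 1))) 1, BoxSpace G),
      ∀ x, f (-x) = boxSwap G (f x) := by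
  classical
  obtain ⟨hne, -, hE, hadj⟩ := hφ
  have hne' : ∀ v, (φ v).Nonempty := fun v => hne _ ((hE _).2 ⟨v, rfl⟩)
  have hV : (univ : Finset V).Nonempty := by
    by_contra h
    apply hcd ∅ (by simp)
    refine ⟨fun _ => true, fun e he _ => ?_⟩
    obtain ⟨v, -⟩ := (hE e).1 he
    exact absurd ⟨v, Finset.mem_univ v⟩ h
  let τ : W → ℝ := fun w => ((Fintype.equivFin W w : ℕ) : ℝ)
  have hτ : Function.Injective τ := by
    intro w w' h
    have h1 : (Fintype.equivFin W w : ℕ) = (Fintype.equivFin W w' : ℕ) := by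
      simpa [τ] using h
    exact (Fintype.equivFin W).injective (Fin.ext h1)
  let α : EuclideanSpace ℝ (Fin (d + 1)) → ℝ := fun x =>
    univ.sup' hV fun v => (φ v).inf' (hne' v) fun w => P τ x w
  have α_cont : Continuous α := by
    apply Continuous.finset_sup'_apply
    intro v _
    apply Continuous.finset_inf'_apply
    intro w _
    exact P_cont τ w
  have α1 : ∀ x v, ∃ w ∈ φ v, P τ x w ≤ α x := by
    intro x v
    obtain ⟨w, hw, hw'⟩ := Finset.exists_mem_eq_inf' (hne' v) fun w => P τ x w
    refine ⟨w, hw, ?_⟩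
    rw [← hw']
    exact Finset.le_sup' (fun v => (φ v).inf' (hne' v) fun w => P τ x w) (Finset.mem_univ v)
  have α2 : ∀ x, ∃ v, ∀ w ∈ φ v, α x ≤ P τ x w := by
    intro x
    obtain ⟨v, -, hv⟩ := Finset.exists_mem_eq_sup' hV
      fun v => (φ v).inf' (hne' v) fun w => P τ x w
    refine ⟨v, fun w hw => ?_⟩
    show univ.sup' hV _ ≤ _
    rw [hv]
    exact Finset.inf'_le _ hw
  have αpos : ∀ x, x ≠ 0 → 0 < α x + α (-x) := by
    intro x hx
    let U : Finset W := univ.filter fun w => P τ x w + (-α x) = 0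
    have hU : U.card ≤ d + 1 :=
      zeros_card τ hτ x hx (-α x) U fun w hw => (Finset.mem_filter.mp hw).2
    have h := hcd U hU
    unfold TwoColorableOff at h
    push Not at h
    obtain ⟨e, he, hdis, b, hb⟩ := h fun w => decide (α x < P τ x w.1)
    obtain ⟨v, rfl⟩ := (hE e).1 he
    have hnU : ∀ w ∈ φ v, w ∉ U := fun w hw => Finset.disjoint_left.mp hdis hw
    cases b with
    | true =>
      obtain ⟨w, hw, hw'⟩ := α1 x v
      have := hb ⟨w, hnU w hw⟩ hw
      simp only [decide_eq_true_eq] at this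
      linarith
    | false =>
      obtain ⟨w, hw, hw'⟩ := α1 (-x) v
      have h1 := hb ⟨w, hnU w hw⟩ hw
      simp only [decide_eq_false_iff_not, not_lt] at h1
      have h2 := hnU w hw
      simp only [U, Finset.mem_filter, Finset.mem_univ, true_and] at h2
      rw [P_neg] at hw'
      have h3 : P τ x w < α x := lt_of_le_of_ne h1 (fun h => h2 (by linarith))
      linarith
  let y : EuclideanSpace ℝ (Fin (d + 1)) → W → ℝ := fun x w => P τ x w + (α (-x) - α x) / 2
  have y_neg : ∀ x w, y (-x) w = - y x w := by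
    intro x w
    simp only [y, P_neg, neg_neg]
    ring
  have y_cont : ∀ w, Continuous fun x => y x w := by
    intro w
    exact (P_cont τ w).add (((α_cont.comp continuous_neg).sub α_cont).div_const 2)
  let g : EuclideanSpace ℝ (Fin (d + 1)) → V → ℝ := fun x v => ∏ w ∈ φ v, max (y x w) 0
  have g_cont : ∀ v, Continuous fun x => g x v := by
    intro v
    apply continuous_finsetProd
    intro w _
    exact (y_cont w).max continuous_const
  have g_nonneg : ∀ x v, 0 ≤ g x v := fun x v => Finset.prod_nonneg fun w _ => le_max_right _ _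
  have g_pos : ∀ x, x ≠ 0 → ∃ v, 0 < g x v := by
    intro x hx
    obtain ⟨v, hv⟩ := α2 x
    refine ⟨v, Finset.prod_pos fun w hw => lt_max_of_lt_left ?_⟩
    have h1 := hv w hw
    have h2 := αpos x hx
    simp only [y]
    linarith
  have g_ne : ∀ x v, g x v ≠ 0 → ∀ w ∈ φ v, 0 < y x w := by
    intro x v h w hw
    have h1 := Finset.prod_ne_zero_iff.mp h w hw
    by_contra h2
    push Not at h2
    exact h1 (max_eq_right h2)
  have g_adj : ∀ x u v, g x u ≠ 0 → g (-x) v ≠ 0 → G.Adj u v := by
    intro x u v hu hv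
    have hdis : Disjoint (φ u) (φ v) := by
      rw [Finset.disjoint_left]
      intro w h1 h2
      have h3 := g_ne x u hu w h1
      have h4 := g_ne (-x) v hv w h2
      rw [y_neg] at h4
      linarith
    refine (hadj u v ?_).2 hdis
    rintro rfl
    obtain ⟨w, hw⟩ := hne' u
    exact Finset.disjoint_left.mp hdis hw hw
  let p : EuclideanSpace ℝ (Fin (d + 1)) → V × Bool → ℝ := fun x z =>
    if z.2 = true then g x z.1 else g (-x) z.1
  have p_true : ∀ x v, p x (v, true) = g x v := fun x v => by simp [p]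
  have p_false : ∀ x v, p x (v, false) = g (-x) v := fun x v => by simp [p]
  have p_cont : ∀ z, Continuous fun x => p x z := by
    rintro ⟨v, b⟩
    cases b
    · simp only [p_false]
      exact (g_cont v).comp continuous_neg
    · simp only [p_true]
      exact g_cont v
  have p_nonneg : ∀ x z, 0 ≤ p x z := by
    rintro x ⟨v, b⟩
    cases b
    · rw [p_false]
      exact g_nonneg _ _
    · rw [p_true]
      exact g_nonneg _ _
  have p_neg : ∀ x v b, p (-x) (v, b) = p x (v, !b) := by
    intro x v b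
    cases b
    · simp [p_true, p_false]
    · simp [p_true, p_false]
  let S : EuclideanSpace ℝ (Fin (d + 1)) → ℝ := fun x => ∑ z, p x z
  have S_cont : Continuous S := continuous_finsetSum _ fun z _ => p_cont z
  have S_pos : ∀ x, x ≠ 0 → 0 < S x := by
    intro x hx
    obtain ⟨v, hv⟩ := g_pos x hx
    exact Finset.sum_pos' (fun z _ => p_nonneg x z)
      ⟨(v, true), Finset.mem_univ _, by rw [p_true]; exact hv⟩
  have S_neg : ∀ x, S (-x) = S x := by
    intro x
    simp only [S, Fintype.sum_prod_type, Fintype.sum_bool, p_true, p_false, neg_neg]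
    simp [add_comm]
  have hsph : ∀ x : Metric.sphere (0 : EuclideanSpace ℝ (Fin (d + 1))) 1, x.1 ≠ 0 := by
    intro x hx
    have := x.2
    rw [hx] at this
    simp at this
  have hmem : ∀ x : EuclideanSpace ℝ (Fin (d + 1)), x ≠ 0 →
      (∀ z, 0 ≤ p x z / S x) ∧ ∑ z, p x z / S x = 1 ∧
        IsBoxSimplex G {z | p x z / S x ≠ 0} := by
    intro x hx
    have hS := S_pos x hx
    have hsupp : ∀ z, p x z / S x ≠ 0 ↔ p x z ≠ 0 := by
      intro z
      simp [hS.ne']
    have hA : ∀ a b, p x (a, true) / S x ≠ 0 → p x (b, false) / S x ≠ 0 → G.Adj a b := by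
      intro a b ha hb
      rw [hsupp, p_true] at ha
      rw [hsupp, p_false] at hb
      exact g_adj x a b ha hb
    refine ⟨fun z => div_nonneg (p_nonneg x z) hS.le, ?_, ?_, hA, ?_, ?_⟩
    · rw [← Finset.sum_div]
      exact div_self hS.ne'
    · rw [Set.disjoint_left]
      intro a ha hb
      exact G.irrefl (hA a a ha hb)
    · obtain ⟨v, hv⟩ := g_pos (-x) (neg_ne_zero.mpr hx)
      refine ⟨v, fun a ha => hA a v ha ?_⟩
      rw [hsupp, p_false]
      exact hv.ne'
    · obtain ⟨v, hv⟩ := g_pos x hx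
      refine ⟨v, fun a ha => (hA v a ?_ ha).symm⟩
      rw [hsupp, p_true]
      exact hv.ne'
  refine ⟨⟨fun x => ⟨fun z => p x.1 z / S x.1, hmem x.1 (hsph x)⟩, ?_⟩, ?_⟩
  · apply Continuous.subtype_mk
    apply continuous_pi
    intro z
    exact ((p_cont z).comp continuous_subtype_val).div (S_cont.comp continuous_subtype_val)
      fun x => (S_pos x.1 (hsph x)).ne'
  · intro x
    apply Subtype.ext
    funext z
    obtain ⟨v, b⟩ := z
    show p (-x.1) (v, b) / S (-x.1) = p x.1 (v, !b) / S x.1
    rw [p_neg, S_neg]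

theorem cd_le {V W : Type*} [Fintype V] [Fintype W] (G : SimpleGraph V)
    (E : Finset (Finset W)) (φ : V → Finset W) (hφ : IsKneserRep G E φ) :
    cd E ≤ coind (boxSwap G) + 2 := by
  classical
  have hex : ∃ m : ℕ, ∃ U : Finset W, U.card = m ∧ TwoColorableOff E U := by
    refine ⟨_, univ, rfl, fun _ => true, fun e he hdis => ?_⟩
    obtain ⟨w, hw⟩ := hφ.1 e he
    exact absurd (Finset.mem_univ w) (Finset.disjoint_left.mp hdis hw)
  obtain ⟨U, hU, hU'⟩ := Nat.find_spec hex
  have h1 : cd E ≤ (Nat.find hex : EReal) := by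
    rw [← hU]
    exact sInf_le ⟨U, rfl, hU'⟩
  refine le_trans h1 ?_
  by_cases hm : Nat.find hex ≤ 1
  · have h2 : (-1 : EReal) ≤ coind (boxSwap G) := le_sSup (Or.inl rfl)
    have h3 : (Nat.find hex : EReal) ≤ 1 := by exact_mod_cast hm
    refine le_trans h3 (le_trans ?_ (add_le_add_left h2 2))
    have : (-1 : EReal) + 2 = ((-1 + 2 : ℝ) : EReal) := rfl
    rw [this]
    norm_num
  · obtain ⟨d, hd⟩ : ∃ d, Nat.find hex = d + 2 := ⟨Nat.find hex - 2, by omega⟩
    have hmap := exists_map G E φ hφ d (fun U hU hU' => by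
      have := Nat.find_min' hex ⟨U, rfl, hU'⟩
      omega)
    have h2 : (d : EReal) ≤ coind (boxSwap G) := le_sSup (Or.inr ⟨d, rfl, hmap⟩)
    rw [hd]
    push_cast
    exact add_le_add_left h2 2

end Pool.Agent.H178Z.Box
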