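import Mathlib

namespace Pool.Agent.H178Z.ConvexEmb

open Finset

lemma convexIndep_parabola {ι : Type*} (p : ι → (Fin 2 → ℝ))
    (h1 : ∀ i, p i 1 = (p i 0) ^ 2) (h2 : Function.Injective fun i => p i 0) :
    ConvexIndependent ℝ p := by
  intro s i hi
  by_contra hns
  have hconv : Convex ℝ {z : Fin 2 → ℝ | -(p i 0) ^ 2 < z 1 - 2 * p i 0 * z 0} := by
    apply convex_halfSpace_gt
    constructor
    · intro x y
      simp only [Pi.add_apply]
      ring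
    · intro c x
      simp only [Pi.smul_apply, smul_eq_mul]
      ring
  have hsub : p '' s ⊆ {z : Fin 2 → ℝ | -(p i 0) ^ 2 < z 1 - 2 * p i 0 * z 0} := by
    rintro _ ⟨j, hj, rfl⟩
    have hne : p j 0 ≠ p i 0 := by
      intro h
      have : j = i := h2 h
      exact hns (this ▸ hj)
    have : 0 < (p j 0 - p i 0) ^ 2 := by
      have := sub_ne_zero.mpr hne
      positivity
    show -(p i 0) ^ 2 < p j 1 - 2 * p i 0 * p j 0
    rw [h1 j]
    nlinarith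
  have := convexHull_min hsub hconv hi
  change -(p i 0) ^ 2 < p i 1 - 2 * p i 0 * p i 0 at this
  rw [h1 i] at this
  nlinarith

lemma digit {M u u' x x' : ℕ} (hu : u < M) (hu' : u' < M) (h : u + M * x = u' + M * x') :
    u = u' ∧ x = x' := by
  have h1 : (u + M * x) % M = (u' + M * x') % M := by rw [h]
  rw [Nat.add_mul_mod_self_left, Nat.add_mul_mod_self_left, Nat.mod_eq_of_lt hu,
    Nat.mod_eq_of_lt hu'] at h1
  refine ⟨h1, ?_⟩
  rw [h1] at h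
  exact Nat.eq_of_mul_eq_mul_left (by omega) (Nat.add_left_cancel h)

def D (M a b c d e : ℕ) : ℕ := a + M * (b + M * (c + M * (d + M * e)))

lemma D_inj {M a b c d e a' b' c' d' e' : ℕ} (ha : a < M) (hb : b < M) (hc : c < M) (hd : d < M)
    (ha' : a' < M) (hb' : b' < M) (hc' : c' < M) (hd' : d' < M)
    (h : D M a b c d e = D M a' b' c' d' e') :
    a = a' ∧ b = b' ∧ c = c' ∧ d = d' ∧ e = e' := by
  obtain ⟨h1, h⟩ := digit ha ha' h
  obtain ⟨h2, h⟩ := digit hb hb' h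
  obtain ⟨h3, h⟩ := digit hc hc' h
  obtain ⟨h4, h⟩ := digit hd hd' h
  exact ⟨h1, h2, h3, h4, h⟩

abbrev W (M : ℕ) : Type := Fin 6 × Fin M × Fin M

def X (M : ℕ) (w : W M) : ℕ :=
  ![D M w.2.1 w.2.2 0 0 0, D M w.2.1 0 w.2.2 0 1, D M w.2.1 0 0 w.2.2 2,
    D M 0 w.2.1 w.2.2 0 3, D M 0 w.2.1 0 w.2.2 4, D M 0 0 w.2.1 w.2.2 5] w.1

lemma X_inj (M : ℕ) : Function.Injective (X M) := by
  rintro ⟨p, u, v⟩ ⟨p', u', v'⟩ h
  have hu := u.2
  have hv := v.2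
  have hu' := u'.2
  have hv' := v'.2
  have h0 : 0 < M := by omega
  fin_cases p <;> fin_cases p' <;>
    simp only [X, Fin.zero_eta, Fin.mk_one, Fin.reduceFinMk, Matrix.cons_val_zero,
      Matrix.cons_val_one, Matrix.cons_val] at h <;>
    obtain ⟨h1, h2, h3, h4, h5⟩ := D_inj (by assumption) (by assumption) (by assumption)
      (by assumption) (by assumption) (by assumption) (by assumption) (by assumption) h <;>
    first
      | omega
      | (refine Prod.ext rfl (Prod.ext (Fin.ext ?_) (Fin.ext ?_)) <;> assumption)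

noncomputable def Q (s t : ℝ) : ℝ := 18 * s * t + 3 * (s ^ 2 + t ^ 2)

noncomputable def Y (M : ℕ) (w : W M) : ℝ :=
  ![Q w.2.1 (w.2.2 * M), Q w.2.1 (w.2.2 * M ^ 2), Q w.2.1 (w.2.2 * M ^ 3),
    Q (w.2.1 * M) (w.2.2 * M ^ 2), Q (w.2.1 * M) (w.2.2 * M ^ 3),
    Q (w.2.1 * M ^ 2) (w.2.2 * M ^ 3)] w.1

noncomputable def F (M : ℕ) (w : W M) : Fin 2 → ℝ := ![(X M w : ℝ) - 5 / 2 * (M : ℝ) ^ 4, Y M w]

lemma F_inj (M : ℕ) : Function.Injective (F M) := by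
  intro w w' h
  have h0 := congrFun h 0
  simp only [F, Matrix.cons_val_zero, sub_left_inj, Nat.cast_inj] at h0
  exact X_inj M h0

abbrev T (M : ℕ) : Type := Fin M × Fin M × Fin M × Fin M

def g {M : ℕ} (t : T M) : Fin 6 → Fin M × Fin M :=
  ![(t.1, t.2.1), (t.1, t.2.2.1), (t.1, t.2.2.2), (t.2.1, t.2.2.1), (t.2.1, t.2.2.2),
    (t.2.2.1, t.2.2.2)]

def emb {M : ℕ} (t : T M) : Fin 6 ↪ W M :=
  ⟨fun p => (p, g t p), fun _ _ h => congrArg Prod.fst h⟩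

lemma sum0 {M : ℕ} (t : T M) :
    (∑ p : Fin 6, F M (emb t p)) 0 = 3 * (D M t.1 t.2.1 t.2.2.1 t.2.2.2 0 : ℝ) := by
  simp only [Finset.sum_apply, Fin.sum_univ_six, F, Matrix.cons_val_zero, emb,
    Function.Embedding.coeFn_mk, X, g, D, Matrix.cons_val_one, Matrix.cons_val]
  push_cast
  ring

lemma sum1 {M : ℕ} (t : T M) :
    (∑ p : Fin 6, F M (emb t p)) 1 = (3 * (D M t.1 t.2.1 t.2.2.1 t.2.2.2 0 : ℝ)) ^ 2 := by
  simp only [Finset.sum_apply, Fin.sum_univ_six, F, Matrix.cons_val_zero, emb,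
    Function.Embedding.coeFn_mk, Y, Q, g, D, Matrix.cons_val_one, Matrix.cons_val]
  push_cast
  ring

lemma Dt_inj {M : ℕ} (t t' : T M)
    (h : D M t.1 t.2.1 t.2.2.1 t.2.2.2 0 = D M t'.1 t'.2.1 t'.2.2.1 t'.2.2.2 0) : t = t' := by
  obtain ⟨h1, h2, h3, h4, -⟩ := D_inj t.1.2 t.2.1.2 t.2.2.1.2 t.2.2.2.2 t'.1.2 t'.2.1.2 t'.2.2.1.2
    t'.2.2.2.2 h
  exact Prod.ext (Fin.ext h1) (Prod.ext (Fin.ext h2) (Prod.ext (Fin.ext h3) (Fin.ext h4)))

/-- A 6-uniform hypergraph on `6 M^2` vertices with `M^4` edges and a convex embedding in the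
plane. -/
theorem construction (M : ℕ) :
    ∃ E : Finset (Finset (Fin (6 * M ^ 2))), (∀ e ∈ E, e.card = 6) ∧
      (∃ f : Fin (6 * M ^ 2) → (Fin 2 → ℝ), Function.Injective f ∧
        ConvexIndependent ℝ (fun e : ↥E => ∑ v ∈ e.1, f v)) ∧ E.card = M ^ 4 := by
  classical
  have hc : Fintype.card (W M) = 6 * M ^ 2 := by
    simp [sq]
  let φ : W M ≃ Fin (6 * M ^ 2) := Fintype.equivFinOfCardEq hc
  let ed : T M → Finset (Fin (6 * M ^ 2)) := fun t => univ.map ((emb t).trans φ.toEmbedding)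
  have hsum : ∀ t, ∑ v ∈ ed t, F M (φ.symm v) = ∑ p : Fin 6, F M (emb t p) := by
    intro t
    simp [ed, Finset.sum_map]
  have hinj : Function.Injective ed := by
    intro t t' h
    apply Dt_inj
    have h1 := sum0 t
    have h2 := sum0 t'
    rw [← hsum] at h1 h2
    rw [h, h2] at h1
    have h3 : (D M t.1 t.2.1 t.2.2.1 t.2.2.2 0 : ℝ) = D M t'.1 t'.2.1 t'.2.2.1 t'.2.2.2 0 := by
      linarith
    exact_mod_cast h3
  refine ⟨univ.image ed, ?_, ⟨fun v => F M (φ.symm v), (F_inj M).comp φ.symm.injective, ?_⟩, ?_⟩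
  · intro e he
    obtain ⟨t, -, rfl⟩ := Finset.mem_image.mp he
    simp [ed]
  · apply convexIndep_parabola
    · rintro ⟨e, he⟩
      obtain ⟨t, -, rfl⟩ := Finset.mem_image.mp he
      show (∑ v ∈ ed t, F M (φ.symm v)) 1 = ((∑ v ∈ ed t, F M (φ.symm v)) 0) ^ 2
      rw [hsum, sum0, sum1]
    · rintro ⟨e, he⟩ ⟨e', he'⟩ h
      obtain ⟨t, -, rfl⟩ := Finset.mem_image.mp he
      obtain ⟨t', -, rfl⟩ := Finset.mem_image.mp he'
      change (∑ v ∈ ed t, F M (φ.symm v)) 0 = (∑ v ∈ ed t', F M (φ.symm v)) 0 at h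
      rw [hsum, hsum, sum0, sum0] at h
      have h3 : (D M t.1 t.2.1 t.2.2.1 t.2.2.2 0 : ℝ) = D M t'.1 t'.2.1 t'.2.2.1 t'.2.2.2 0 := by
        linarith
      have h4 : t = t' := Dt_inj t t' (by exact_mod_cast h3)
      subst h4
      rfl
  · rw [Finset.card_image_of_injective _ hinj]
    simp
    ring

lemma no_bound (α C : ℝ) (hα : α < 2) (N : ℕ) :
    ∃ M : ℕ, N ≤ 6 * M ^ 2 ∧ C * ((6 * M ^ 2 : ℕ) : ℝ) ^ α < ((M ^ 4 : ℕ) : ℝ) := by
  have h1 : Filter.Tendsto (fun M : ℕ => 6 * M ^ 2) Filter.atTop Filter.atTop := by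
    apply Filter.tendsto_atTop_mono (fun M => ?_) Filter.tendsto_id
    show M ≤ 6 * M ^ 2
    nlinarith [Nat.le_self_pow (two_ne_zero) M]
  have h2 : Filter.Tendsto (fun M : ℕ => ((6 * M ^ 2 : ℕ) : ℝ) ^ (2 - α)) Filter.atTop
      Filter.atTop :=
    (tendsto_rpow_atTop (by linarith)).comp (tendsto_natCast_atTop_atTop.comp h1)
  obtain ⟨M, hM1, hM2, hM3⟩ := ((h1.eventually_ge_atTop N).and
    ((h2.eventually_gt_atTop (36 * C)).and (h1.eventually_ge_atTop 1))).exists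
  refine ⟨M, hM1, ?_⟩
  have hpos : (0 : ℝ) < ((6 * M ^ 2 : ℕ) : ℝ) := by exact_mod_cast hM3
  have h3 : ((6 * M ^ 2 : ℕ) : ℝ) ^ (2 - α) * ((6 * M ^ 2 : ℕ) : ℝ) ^ α
      = 36 * ((M ^ 4 : ℕ) : ℝ) := by
    rw [← Real.rpow_add hpos, sub_add_cancel, Real.rpow_two]
    push_cast
    ring
  have h4 : 0 < ((6 * M ^ 2 : ℕ) : ℝ) ^ α := Real.rpow_pos_of_pos hpos _
  nlinarith

end Pool.Agent.H178Z.ConvexEmb
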