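import Mathlib

namespace Pool.Agent.H178Z.SK

/-- `T` is strongly Kreiss bounded with constant at most `M`: the spectrum lies in the closed unit
disc and `‖R(z,T)^k‖ ≤ M / (|z| - 1)^k` for all `k ≥ 1` and `|z| > 1`. -/
def StrongKreiss {X : Type} [NormedAddCommGroup X] [NormedSpace ℂ X] (T : X →L[ℂ] X) (M : ℝ) :
    Prop :=
  spectrum ℂ T ⊆ Metric.closedBall 0 1 ∧
    ∀ k : ℕ, 1 ≤ k → ∀ z : ℂ, 1 < ‖z‖ → ‖resolvent T z ^ k‖ ≤ M / (‖z‖ - 1) ^ k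

/-- `θ ≥ 0` is admissible: for every `M ≥ 1` there is `C` such that `‖T^n‖ ≤ C d^θ` for all
`d ≥ 1`, all `d`-dimensional complex normed spaces, all strongly Kreiss bounded `T` on them with
constant at most `M`, and all `n ≥ 1`. -/
def Admissible (θ : ℝ) : Prop :=
  0 ≤ θ ∧ ∀ M : ℝ, 1 ≤ M → ∃ C : ℝ, ∀ d : ℕ, 1 ≤ d →
    ∀ (X : Type) [NormedAddCommGroup X] [NormedSpace ℂ X] [FiniteDimensional ℂ X],
      Module.finrank ℂ X = d → ∀ T : X →L[ℂ] X, StrongKreiss T M →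
        ∀ n : ℕ, 1 ≤ n → ‖T ^ n‖ ≤ C * (d : ℝ) ^ θ

end Pool.Agent.H178Z.SK
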