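import Pool.Agent.H178Z.SKDefs

namespace Pool.Agent.H178Z.SK

open Finset

lemma var_bound (m : ℕ → ℂ) (ε : ℕ → ℝ) (c : ℂ) (τ : ℝ) (hτ : 0 < τ)
    (hm : ∀ l, ‖m l‖ ≤ 1) (hε0 : ∀ l, 0 < ε l) (hε1 : ∀ l, ε l ≤ 1 / 4)
    (hε2 : ∀ l, ε (l + 1) ≤ ε l ^ 2 / 4)
    (hI : ∀ l, 2 * τ ≤ ε l → ‖m l‖ ≤ 2 * τ / ε l)
    (hIII : ∀ l, ε l ≤ τ / 2 → ‖m l - c‖ ≤ 8 * ε l / τ ^ 2) (n : ℕ) :
    ∑ l ∈ range n, ‖m l - m (l + 1)‖ ≤ 31 := by
  classical
  let Φ : ℕ → ℝ := fun l =>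
    if 2 * τ ≤ ε l then 3 * (2 * τ / ε l)
    else if ε l ≤ τ / 2 ∧ ε l ≤ τ ^ 2 then 31 - 3 * (8 * ε l / τ ^ 2) else 5
  have hτ2 : 0 < τ ^ 2 := by positivity
  have hhalf : ∀ l, ε (l + 1) ≤ ε l / 16 := by
    intro l
    have h1 := hε2 l
    have h2 := hε1 l
    have h3 := hε0 l
    nlinarith
  have hA : ∀ l, 2 * τ ≤ ε l → 2 * τ / ε l ≤ 1 := fun l h => (div_le_one (hε0 l)).2 h
  have hA0 : ∀ l, 0 ≤ 2 * τ / ε l := fun l => by have := hε0 l; positivity
  have hB : ∀ l, ε l ≤ τ ^ 2 → 8 * ε l / τ ^ 2 ≤ 8 := fun l h => by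
    rw [div_le_iff₀ hτ2]
    linarith
  have hB0 : ∀ l, 0 ≤ 8 * ε l / τ ^ 2 := fun l => by have := hε0 l; positivity
  have hΦ0 : ∀ l, 0 ≤ Φ l ∧ Φ l ≤ 31 := by
    intro l
    simp only [Φ]
    split_ifs with h1 h2
    · have := hA l h1
      have := hA0 l
      constructor <;> linarith
    · have := hB l h2.2
      have := hB0 l
      constructor <;> linarith
    · constructor <;> norm_num
  have h2 : ∀ l, ‖m l - m (l + 1)‖ ≤ 2 := fun l => by
    have := norm_sub_le (m l) (m (l + 1))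
    have := hm l
    have := hm (l + 1)
    linarith
  have hstep : ∀ l, ‖m l - m (l + 1)‖ ≤ Φ (l + 1) - Φ l := by
    intro l
    have hh := hhalf l
    have h2l := h2 l
    have e0 := hε0 l
    have e1 := hε0 (l + 1)
    by_cases hl : 2 * τ ≤ ε l
    · have a1 := hA l hl
      by_cases hl' : 2 * τ ≤ ε (l + 1)
      · simp only [Φ, if_pos hl, if_pos hl']
        have b1 := hI l hl
        have b2 := hI (l + 1) hl'
        have b3 := norm_sub_le (m l) (m (l + 1))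
        have b4 : 2 * (2 * τ / ε l) ≤ 2 * τ / ε (l + 1) := by
          rw [← mul_div_assoc, div_le_div_iff₀ e0 e1]
          nlinarith
        linarith
      · simp only [Φ, if_pos hl, if_neg hl']
        split_ifs with h3
        · have := hB (l + 1) h3.2
          linarith
        · linarith
    · have hl0 : ε l < 2 * τ := not_le.mp hl
      have hl' : ¬ 2 * τ ≤ ε (l + 1) := by
        rw [not_le]
        linarith
      have h3 : ε (l + 1) ≤ τ / 2 ∧ ε (l + 1) ≤ τ ^ 2 := by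
        constructor
        · linarith
        · have := hε2 l
          nlinarith
      simp only [Φ, if_neg hl, if_neg hl', if_pos h3]
      split_ifs with h4
      · have b1 := hIII l h4.1
        have b2 := hIII (l + 1) h3.1
        have b3 : ‖m l - m (l + 1)‖ ≤ ‖m l - c‖ + ‖m (l + 1) - c‖ := by
          have := norm_sub_le (m l - c) (m (l + 1) - c)
          rwa [sub_sub_sub_cancel_right] at this
        have b4 : 2 * (8 * ε (l + 1) / τ ^ 2) ≤ 8 * ε l / τ ^ 2 := by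
          rw [← mul_div_assoc, div_le_div_iff_of_pos_right hτ2]
          linarith
        linarith
      · have := hB (l + 1) h3.2
        linarith
  calc ∑ l ∈ range n, ‖m l - m (l + 1)‖ ≤ ∑ l ∈ range n, (Φ (l + 1) - Φ l) :=
        Finset.sum_le_sum fun l _ => hstep l
    _ = Φ n - Φ 0 := Finset.sum_range_sub Φ n
    _ ≤ 31 := by
        have := (hΦ0 n).2
        have := (hΦ0 0).1
        linarith

lemma norm_pow_sub_pow (u v : ℂ) (w : ℝ) (hu : ‖u‖ ≤ w) (hv : ‖v‖ ≤ w) (k : ℕ) :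
    ‖u ^ (k + 1) - v ^ (k + 1)‖ ≤ (k + 1) * ‖u - v‖ * w ^ k := by
  have hw : 0 ≤ w := le_trans (norm_nonneg _) hu
  induction k with
  | zero => simp
  | succ k ih =>
    have e : u ^ (k + 1 + 1) - v ^ (k + 1 + 1)
        = u * (u ^ (k + 1) - v ^ (k + 1)) + (u - v) * v ^ (k + 1) := by ring
    rw [e]
    refine le_trans (norm_add_le _ _) ?_
    rw [norm_mul, norm_mul, norm_pow]
    have h1 : ‖u‖ * ‖u ^ (k + 1) - v ^ (k + 1)‖ ≤ w * ((k + 1) * ‖u - v‖ * w ^ k) :=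
      mul_le_mul hu ih (norm_nonneg _) hw
    have h2 : ‖u - v‖ * ‖v‖ ^ (k + 1) ≤ ‖u - v‖ * w ^ (k + 1) :=
      mul_le_mul_of_nonneg_left (pow_le_pow_left₀ (norm_nonneg _) hv _) (norm_nonneg _)
    push_cast
    calc _ ≤ w * ((k + 1) * ‖u - v‖ * w ^ k) + ‖u - v‖ * w ^ (k + 1) := add_le_add h1 h2
      _ = _ := by ring

lemma bern2 (x : ℝ) (hx : 0 ≤ x) (k : ℕ) :
    1 + (k + 1) * x + (k + 1) * k / 2 * x ^ 2 ≤ (1 + x) ^ (k + 1) := by
  induction k with
  | zero => simp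
  | succ k ih =>
    rw [pow_succ (1 + x) (k + 1)]
    have h1 := mul_le_mul_of_nonneg_right ih (by linarith : 0 ≤ 1 + x)
    have h2 : 0 ≤ ((k : ℝ) + 1) * k / 2 * x ^ 3 := by positivity
    push_cast
    nlinarith

lemma dist_sq (r : ℝ) (ζ μ : ℂ) (hζ : ‖ζ‖ = 1) (hμ : ‖μ‖ = 1) :
    ‖(r : ℂ) * ζ - μ‖ ^ 2 = (r - 1) ^ 2 + r * ‖ζ - μ‖ ^ 2 := by
  have h1 : ζ.re ^ 2 + ζ.im ^ 2 = 1 := by
    have := Complex.sq_norm ζ
    rw [hζ, Complex.normSq_apply] at this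
    linarith
  have h2 : μ.re ^ 2 + μ.im ^ 2 = 1 := by
    have := Complex.sq_norm μ
    rw [hμ, Complex.normSq_apply] at this
    linarith
  rw [Complex.sq_norm, Complex.sq_norm, Complex.normSq_apply, Complex.normSq_apply]
  simp only [Complex.sub_re, Complex.mul_re, Complex.ofReal_re, Complex.ofReal_im, zero_mul,
    sub_zero, Complex.sub_im, Complex.mul_im, add_zero]
  linear_combination (r ^ 2 - r) * h1 + (1 - r) * h2

/-- The scalar multiplier. -/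
lemma u_bound (r : ℝ) (hr : 1 < r) (ζ μ : ℂ) (hζ : ‖ζ‖ = 1) (hμ : ‖μ‖ = 1) (δ : ℝ)
    (hδ0 : 0 ≤ δ) (hδ : δ ≤ ‖ζ - μ‖) :
    ‖((r - 1 : ℝ) : ℂ) * ((r : ℂ) * ζ - μ)⁻¹‖ ^ 2 * (1 + r * δ ^ 2 / (r - 1) ^ 2) ≤ 1 := by
  have hs : 0 < r - 1 := by linarith
  have hd := dist_sq r ζ μ hζ hμ
  have h1 : δ ^ 2 ≤ ‖ζ - μ‖ ^ 2 := pow_le_pow_left₀ hδ0 hδ 2
  have h2 : (r - 1) ^ 2 + r * δ ^ 2 ≤ ‖(r : ℂ) * ζ - μ‖ ^ 2 := by
    rw [hd]
    nlinarith
  have h3 : 0 < ‖(r : ℂ) * ζ - μ‖ ^ 2 := by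
    have : 0 < (r - 1) ^ 2 := by positivity
    have : 0 ≤ r * δ ^ 2 := by positivity
    linarith
  rw [norm_mul, norm_inv, Complex.norm_real, Real.norm_of_nonneg hs.le, mul_pow, inv_pow]
  have e : (r - 1) ^ 2 * (‖(r : ℂ) * ζ - μ‖ ^ 2)⁻¹ * (1 + r * δ ^ 2 / (r - 1) ^ 2)
      = ((r - 1) ^ 2 + r * δ ^ 2) / ‖(r : ℂ) * ζ - μ‖ ^ 2 := by
    field_simp
  rw [e, div_le_one h3]
  exact h2

lemma ne_of_unit (r : ℝ) (hr : 1 < r) (ζ μ : ℂ) (hζ : ‖ζ‖ = 1) (hμ : ‖μ‖ = 1) :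
    (r : ℂ) * ζ - μ ≠ 0 := by
  intro h
  have hd := dist_sq r ζ μ hζ hμ
  rw [h, norm_zero] at hd
  have : 0 < (r - 1) ^ 2 := by
    have : 0 < r - 1 := by linarith
    positivity
  have : 0 ≤ r * ‖ζ - μ‖ ^ 2 := by
    have : 0 < r := by linarith
    positivity
  nlinarith

lemma mult_var (lam : ℕ → ℂ) (hlam : ∀ l, ‖lam l‖ = 1) (hε0 : ∀ l, 0 < ‖lam l - 1‖)
    (hε1 : ∀ l, ‖lam l - 1‖ ≤ 1 / 4) (hε2 : ∀ l, ‖lam (l + 1) - 1‖ ≤ ‖lam l - 1‖ ^ 2 / 4)
    (r : ℝ) (hr : 1 < r) (ζ : ℂ) (hζ : ‖ζ‖ = 1) (k : ℕ) :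
    (∀ l, ‖(((r - 1 : ℝ) : ℂ) * ((r : ℂ) * ζ - lam l)⁻¹) ^ (k + 1)‖ ≤ 1) ∧
    ∀ n, ∑ l ∈ range n, ‖(((r - 1 : ℝ) : ℂ) * ((r : ℂ) * ζ - lam l)⁻¹) ^ (k + 1)
      - (((r - 1 : ℝ) : ℂ) * ((r : ℂ) * ζ - lam (l + 1))⁻¹) ^ (k + 1)‖ ≤ 31 := by
  have hs : 0 < r - 1 := by linarith
  have hr0 : 0 < r := by linarith
  have hk : (0 : ℝ) < (k : ℝ) + 1 := by positivity
  set s : ℝ := r - 1 with hsdef
  let u : ℂ → ℂ := fun μ => (s : ℂ) * ((r : ℂ) * ζ - μ)⁻¹
  have hu : ∀ μ : ℂ, ‖μ‖ = 1 → ∀ δ : ℝ, 0 ≤ δ → δ ≤ ‖ζ - μ‖ →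
      ‖u μ‖ ^ 2 * (1 + r * δ ^ 2 / s ^ 2) ≤ 1 :=
    fun μ hμ δ h0 h1 => u_bound r hr ζ μ hζ hμ δ h0 h1
  have hu1 : ∀ μ : ℂ, ‖μ‖ = 1 → ‖u μ‖ ≤ 1 := by
    intro μ hμ
    have := hu μ hμ 0 le_rfl (norm_nonneg _)
    simp only [ne_eq, OfNat.ofNat_ne_zero, not_false_eq_true, zero_pow, mul_zero, zero_div,
      add_zero, mul_one] at this
    exact (sq_le_one_iff₀ (norm_nonneg _)).1 this
  have hm1 : ∀ l, ‖u (lam l) ^ (k + 1)‖ ≤ 1 := by
    intro l
    rw [norm_pow]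
    exact pow_le_one₀ (norm_nonneg _) (hu1 _ (hlam l))
  refine ⟨hm1, fun n => ?_⟩
  let σ : ℝ := Real.sqrt (s ^ 2 / (r * (k + 1)))
  have hσ0 : 0 < σ := Real.sqrt_pos.mpr (by positivity)
  have hσ2 : σ ^ 2 = s ^ 2 / (r * (k + 1)) := Real.sq_sqrt (by positivity)
  let ψ : ℝ := ‖ζ - 1‖
  let τ : ℝ := max σ ψ
  have hτσ : σ ≤ τ := le_max_left _ _
  have hτψ : ψ ≤ τ := le_max_right _ _
  have hτ : 0 < τ := lt_of_lt_of_le hσ0 hτσ
  have hdiff : ∀ l, ‖u (lam l) - u 1‖ = ‖lam l - 1‖ / s * (‖u (lam l)‖ * ‖u 1‖) := by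
    intro l
    have n1 := ne_of_unit r hr ζ (lam l) hζ (hlam l)
    have n2 := ne_of_unit r hr ζ 1 hζ norm_one
    have hsc : (s : ℂ) ≠ 0 := by exact_mod_cast hs.ne'
    have e : u (lam l) - u 1 = (lam l - 1) / (s : ℂ) * (u (lam l) * u 1) := by
      simp only [u]
      field_simp
      ring
    rw [e, norm_mul, norm_div, norm_mul, Complex.norm_real, Real.norm_of_nonneg hs.le]
  have hgen : ∀ l (w : ℝ), ‖u (lam l)‖ ≤ w → ‖u 1‖ ≤ w →
      ‖u (lam l) ^ (k + 1) - u 1 ^ (k + 1)‖ ≤ ‖lam l - 1‖ * ((k + 1) / s * w ^ (k + 2)) := by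
    intro l w h1 h2
    have hw : 0 ≤ w := le_trans (norm_nonneg _) h1
    refine le_trans (norm_pow_sub_pow _ _ w h1 h2 k) ?_
    rw [hdiff]
    have h3 : ‖u (lam l)‖ * ‖u 1‖ ≤ w * w := mul_le_mul h1 h2 (norm_nonneg _) hw
    have h4 : 0 ≤ ‖lam l - 1‖ / s := by positivity
    calc _ ≤ (k + 1) * (‖lam l - 1‖ / s * (w * w)) * w ^ k := by gcongr
      _ = _ := by ring
  apply var_bound (fun l => u (lam l) ^ (k + 1)) (fun l => ‖lam l - 1‖) (u 1 ^ (k + 1)) τ hτ hm1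
    hε0 hε1 hε2
  · intro l hl
    have e0 := hε0 l
    have hδ : ‖lam l - 1‖ / 2 ≤ ‖ζ - lam l‖ := by
      have h1 : ‖lam l - 1‖ ≤ ‖ζ - lam l‖ + ‖ζ - 1‖ := by
        have := norm_sub_le (ζ - 1) (ζ - lam l)
        rw [show ζ - 1 - (ζ - lam l) = lam l - 1 by ring] at this
        linarith
      have h2 : ‖ζ - 1‖ ≤ τ := hτψ
      linarith
    set δ := ‖lam l - 1‖ / 2 with hδdef
    have hδ0 : 0 < δ := by positivity
    have h1 := hu _ (hlam l) δ hδ0.le hδ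
    set x := r * δ ^ 2 / s ^ 2 with hx
    have hx0 : 0 < x := by positivity
    have h2 : (‖u (lam l)‖ ^ 2 * (1 + x)) ^ (k + 1) ≤ 1 :=
      pow_le_one₀ (by positivity) h1
    have h3 : 1 + ((k + 1 : ℕ) : ℝ) * x ≤ (1 + x) ^ (k + 1) :=
      one_add_mul_le_pow (by linarith) (k + 1)
    push_cast at h3
    rw [mul_pow, ← pow_mul, mul_comm 2, pow_mul] at h2
    rw [norm_pow]
    set y := ‖u (lam l)‖ ^ (k + 1) with hy
    have hy0 : 0 ≤ y := by positivity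
    have h4 : y ^ 2 * ((k + 1) * x) ≤ 1 := by
      have : y ^ 2 * ((k + 1) * x) ≤ y ^ 2 * (1 + x) ^ (k + 1) := by
        apply mul_le_mul_of_nonneg_left _ (by positivity)
        linarith
      linarith
    have h5 : ((k : ℝ) + 1) * x * σ ^ 2 = δ ^ 2 := by
      rw [hσ2, hx]
      field_simp
    have h6 : (y * δ) ^ 2 ≤ σ ^ 2 := by
      rw [mul_pow, ← h5]
      have : 0 < σ ^ 2 := by positivity
      nlinarith
    have h7 : y * δ ≤ σ := le_of_sq_le_sq h6 hσ0.le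
    rw [le_div_iff₀ e0]
    have : ‖lam l - 1‖ = 2 * δ := by
      rw [hδdef]
      ring
    rw [this]
    nlinarith
  · intro l hl
    have e0 := hε0 l
    have hτ2 : 0 < τ ^ 2 := by positivity
    rcases le_total ψ σ with hc | hc
    · have hτ' : τ = σ := max_eq_left hc
      refine le_trans (hgen l 1 (hu1 _ (hlam l)) (hu1 _ norm_one)) ?_
      rw [one_pow, mul_one, mul_comm 8, mul_div_assoc]
      apply mul_le_mul_of_nonneg_left _ e0.le
      rw [hτ', hσ2, div_le_div_iff₀ hs (by positivity)]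
      have h1 : ((k : ℝ) + 1) * (s ^ 2 / (r * (k + 1))) = s * (s / r) := by
        field_simp
      have h2 : s / r ≤ 1 := by
        rw [div_le_one hr0]
        linarith
      rw [h1]
      nlinarith
    · have hτ' : τ = ψ := max_eq_right hc
      set δ := τ / 2 with hδdef
      have hδ0 : 0 < δ := by positivity
      have hδ1 : δ ≤ ‖ζ - 1‖ := by
        have : ‖ζ - 1‖ = τ := hτ'.symm
        linarith
      have hδ2 : δ ≤ ‖ζ - lam l‖ := by
        have h1 : ‖ζ - 1‖ ≤ ‖ζ - lam l‖ + ‖lam l - 1‖ := by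
          have := norm_add_le (ζ - lam l) (lam l - 1)
          rwa [sub_add_sub_cancel] at this
        have : ‖ζ - 1‖ = τ := hτ'.symm
        linarith
      have h1 := hu _ (hlam l) δ hδ0.le hδ2
      have h1' := hu _ norm_one δ hδ0.le hδ1
      set x := r * δ ^ 2 / s ^ 2 with hx
      have hx0 : 0 < x := by positivity
      set w := max ‖u (lam l)‖ ‖u 1‖ with hw
      have hw0 : 0 ≤ w := le_trans (norm_nonneg _) (le_max_left _ _)
      have hw1 : w ^ 2 * (1 + x) ≤ 1 := by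
        rcases le_total ‖u (lam l)‖ ‖u 1‖ with h | h
        · rw [hw, max_eq_right h]
          exact h1'
        · rw [hw, max_eq_left h]
          exact h1
      refine le_trans (hgen l w (le_max_left _ _) (le_max_right _ _)) ?_
      rw [mul_comm 8, mul_div_assoc]
      apply mul_le_mul_of_nonneg_left _ e0.le
      have h2 : (w ^ 2 * (1 + x)) ^ (k + 2) ≤ 1 := pow_le_one₀ (by positivity) hw1
      rw [mul_pow, ← pow_mul, mul_comm 2, pow_mul] at h2
      set y := w ^ (k + 2) with hy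
      have hy0 : 0 ≤ y := by positivity
      have h3 := bern2 x hx0.le (k + 1)
      push_cast at h3
      have h4 : (((k : ℝ) + 1) * x / 2) ^ 2 ≤ (1 + x) ^ (k + 2) := by
        refine le_trans ?_ h3
        have : 0 ≤ ((k : ℝ) + 1 + 1) * x := by positivity
        have : 0 ≤ ((k : ℝ) + 1) * x ^ 2 := by positivity
        have : 0 ≤ ((k : ℝ) + 1) ^ 2 * x ^ 2 := by positivity
        nlinarith
      have h5 : (y * (((k : ℝ) + 1) * x / 2)) ^ 2 ≤ 1 := by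
        rw [mul_pow]
        exact le_trans (mul_le_mul_of_nonneg_left h4 (by positivity)) h2
      have h6 : y * (((k : ℝ) + 1) * x / 2) ≤ 1 := (sq_le_one_iff₀ (by positivity)).1 h5
      have h7 : ((k : ℝ) + 1) / s * y * τ ^ 2
          = 8 * (s / r) * (y * (((k : ℝ) + 1) * x / 2)) := by
        rw [hx, hδdef]
        field_simp
        ring
      have h8 : s / r ≤ 1 := by
        rw [div_le_one hr0]
        linarith
      have h9 : 0 ≤ s / r := by positivity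
      rw [le_div_iff₀ hτ2, h7]
      have h10 : s / r * (y * (((k : ℝ) + 1) * x / 2)) ≤ 1 :=
        mul_le_one₀ h8 (by positivity) h6
      linarith

/-- Exponents `5 * 2^l - 2`. -/
def ex : ℕ → ℕ
  | 0 => 3
  | l + 1 => 2 * ex l + 2

lemma ex_mono : Monotone ex := monotone_nat_of_le_succ fun l => by
  simp only [ex]
  omega

def cc (l : ℕ) : ℕ := if Even l then 2 else 1

noncomputable def th (l : ℕ) : ℝ := Real.pi * cc l / 3 ^ ex l

noncomputable def lam (l : ℕ) : ℂ := Complex.exp (Complex.I * th l)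

lemma norm_lam (l : ℕ) : ‖lam l‖ = 1 := Complex.norm_exp_I_mul_ofReal _

lemma cc_bounds (l : ℕ) : (1 : ℝ) ≤ cc l ∧ (cc l : ℝ) ≤ 2 := by
  unfold cc
  split_ifs <;> norm_num

lemma eps_upper (l : ℕ) : ‖lam l - 1‖ ≤ 27 / 4 / 3 ^ ex l := by
  refine le_trans Real.norm_exp_I_mul_ofReal_sub_one_le ?_
  have h1 := cc_bounds l
  have h2 := Real.pi_lt_d2
  have h3 := Real.pi_pos
  have h4 : 0 ≤ th l := by
    unfold th
    positivity
  rw [Real.norm_of_nonneg h4, th]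
  apply div_le_div_of_nonneg_right _ (by positivity)
  nlinarith

lemma eps_lower (l : ℕ) : 2 / 3 ^ ex l ≤ ‖lam l - 1‖ := by
  have h1 := cc_bounds l
  have h3 := Real.pi_pos
  have h5 : (27 : ℝ) ≤ 3 ^ ex l := by
    have : (3 : ℝ) ^ 3 ≤ 3 ^ ex l := pow_le_pow_right₀ (by norm_num) (ex_mono (Nat.zero_le l))
    linarith
  have h4 : 0 ≤ th l / 2 := by
    unfold th
    positivity
  have h6 : th l / 2 ≤ Real.pi / 2 := by
    have : th l ≤ Real.pi := by
      unfold th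
      rw [div_le_iff₀ (by positivity)]
      nlinarith
    linarith
  have h7 := Real.mul_le_sin h4 h6
  rw [lam, Complex.norm_exp_I_mul_ofReal_sub_one]
  refine le_trans ?_ (le_abs_self _)
  have h8 : 2 / Real.pi * (th l / 2) = cc l / 3 ^ ex l := by
    unfold th
    field_simp
  rw [h8] at h7
  have h9 : 1 / (3 : ℝ) ^ ex l ≤ cc l / 3 ^ ex l :=
    div_le_div_of_nonneg_right h1.1 (by positivity)
  have h10 : 2 / (3 : ℝ) ^ ex l = 2 * (1 / 3 ^ ex l) := by ring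
  linarith

lemma eps_pos (l : ℕ) : 0 < ‖lam l - 1‖ := lt_of_lt_of_le (by positivity) (eps_lower l)

lemma eps_quarter (l : ℕ) : ‖lam l - 1‖ ≤ 1 / 4 := by
  refine le_trans (eps_upper l) ?_
  have h5 : (27 : ℝ) ≤ 3 ^ ex l := by
    have : (3 : ℝ) ^ 3 ≤ 3 ^ ex l := pow_le_pow_right₀ (by norm_num) (ex_mono (Nat.zero_le l))
    linarith
  rw [div_le_iff₀ (by positivity)]
  linarith

lemma eps_sq (l : ℕ) : ‖lam (l + 1) - 1‖ ≤ ‖lam l - 1‖ ^ 2 / 4 := by
  refine le_trans (eps_upper (l + 1)) ?_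
  have h1 : (2 / (3 : ℝ) ^ ex l) ^ 2 ≤ ‖lam l - 1‖ ^ 2 :=
    pow_le_pow_left₀ (by positivity) (eps_lower l) 2
  have h2 : 27 / 4 / (3 : ℝ) ^ ex (l + 1) ≤ (2 / (3 : ℝ) ^ ex l) ^ 2 / 4 := by
    have : (3 : ℝ) ^ ex (l + 1) = 9 * (3 ^ ex l) ^ 2 := by
      simp only [ex]
      ring
    rw [this]
    have h3 : (0 : ℝ) < 3 ^ ex l := by positivity
    rw [div_pow, div_div, div_div, div_le_div_iff₀ (by positivity) (by positivity)]
    nlinarith [sq_pos_of_pos h3]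
  linarith

lemma lam_pow (l d : ℕ) (h : l ≤ d) : lam l ^ (3 ^ ex d) = (-1) ^ l := by
  obtain ⟨j, hj⟩ := Nat.exists_eq_add_of_le (ex_mono h)
  have e : lam l ^ (3 ^ ex d) = (-1) ^ (cc l * 3 ^ j) := by
    rw [lam, ← Complex.exp_nat_mul, ← Complex.exp_pi_mul_I, ← Complex.exp_nat_mul]
    congr 1
    rw [hj, th]
    push_cast
    field_simp
    ring
  rw [e]
  unfold cc
  split_ifs with hl
  · rw [hl.neg_one_pow, pow_mul]
    simp
  · rw [(Nat.not_even_iff_odd.mp hl).neg_one_pow, one_mul]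
    exact Odd.neg_one_pow (Odd.pow (by decide))

section operator

variable {d : ℕ}

/-- Partial sums. -/
def sumMap (d : ℕ) : (Fin d → ℂ) →ₗ[ℂ] (Fin d → ℂ) where
  toFun y j := ∑ l, if l ≤ j then y l else 0
  map_add' y y' := by
    funext j
    simp only [Pi.add_apply, ← Finset.sum_add_distrib]
    apply Finset.sum_congr rfl
    intro l _
    split_ifs <;> simp
  map_smul' c y := by
    funext j
    simp only [Pi.smul_apply, smul_eq_mul, RingHom.id_apply, Finset.mul_sum]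
    apply Finset.sum_congr rfl
    intro l _
    split_ifs <;> simp

/-- Extension by zero. -/
def extd (y : Fin d → ℂ) (l : ℕ) : ℂ := if h : l < d then y ⟨l, h⟩ else 0

lemma sumMap_eq (y : Fin d → ℂ) (j : Fin d) :
    sumMap d y j = ∑ l ∈ range (j.1 + 1), extd y l := by
  show ∑ l, (if l ≤ j then y l else 0) = _
  have h1 : ∑ l : Fin d, (if l ≤ j then y l else 0)
      = ∑ l : Fin d, (fun l : ℕ => if l ≤ j.1 then extd y l else 0) l.1 := by
    apply Finset.sum_congr rfl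
    intro l _
    simp only [extd, l.2, dif_pos, Fin.le_def]
  rw [h1, Fin.sum_univ_eq_sum_range (fun l : ℕ => if l ≤ j.1 then extd y l else 0) d,
    ← Finset.sum_filter]
  congr 1
  ext l
  have := j.2
  simp only [Finset.mem_filter, Finset.mem_range]
  omega

lemma sumMap_inj : Function.Injective (sumMap d) := by
  rw [injective_iff_map_eq_zero]
  intro y hy
  have h : ∀ j, j < d → ∑ l ∈ range (j + 1), extd y l = 0 := by
    intro j hj
    rw [← sumMap_eq y ⟨j, hj⟩, hy]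
    rfl
  funext j
  obtain ⟨j, hj⟩ := j
  have h2 : extd y j = 0 := by
    cases j with
    | zero => simpa using h 0 hj
    | succ j =>
      have h3 := h (j + 1) hj
      rw [Finset.sum_range_succ, h j (by omega), zero_add] at h3
      exact h3
  simpa [extd, hj] using h2

noncomputable def sumEquiv (d : ℕ) : (Fin d → ℂ) ≃ₗ[ℂ] (Fin d → ℂ) :=
  LinearEquiv.ofInjectiveEndo (sumMap d) sumMap_inj

/-- Multipliers with respect to the summing basis. -/
noncomputable def Mul (d : ℕ) : (Fin d → ℂ) →ₐ[ℂ] ((Fin d → ℂ) →L[ℂ] (Fin d → ℂ)) :=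
  ((Module.End.toContinuousLinearMap (Fin d → ℂ)).toAlgHom.comp
    ((sumEquiv d).conjAlgEquiv ℂ).toAlgHom).comp (Algebra.lmul ℂ (Fin d → ℂ))

lemma Mul_apply (m y : Fin d → ℂ) : Mul d m (sumMap d y) = sumMap d (m * y) := by
  change sumEquiv d (m * (sumEquiv d).symm (sumEquiv d y)) = _
  rw [LinearEquiv.symm_apply_apply]
  rfl

lemma abel (m Y : ℕ → ℂ) (j : ℕ) :
    ∑ l ∈ range (j + 1), m l * Y l = m j * (∑ l ∈ range (j + 1), Y l)
      + ∑ l ∈ range j, (m l - m (l + 1)) * ∑ i ∈ range (l + 1), Y i := by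
  induction j with
  | zero => simp
  | succ j ih =>
    rw [Finset.sum_range_succ (fun l => m l * Y l), ih,
      Finset.sum_range_succ (fun l => (m l - m (l + 1)) * ∑ i ∈ range (l + 1), Y i) j,
      Finset.sum_range_succ Y (j + 1)]
    ring

lemma norm_Mul_le (m : ℕ → ℂ) (A V : ℝ) (hA0 : 0 ≤ A) (hV0 : 0 ≤ V) (hA : ∀ l, ‖m l‖ ≤ A)
    (hV : ∀ n, ∑ l ∈ range n, ‖m l - m (l + 1)‖ ≤ V) :
    ‖Mul d (fun l => m l.1)‖ ≤ A + V := by
  apply ContinuousLinearMap.opNorm_le_bound _ (by positivity)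
  intro x
  obtain ⟨y, rfl⟩ : ∃ y, sumMap d y = x := (sumEquiv d).surjective x
  rw [Mul_apply, pi_norm_le_iff_of_nonneg (by positivity)]
  intro j
  have hP : ∀ l, l < d → ‖∑ i ∈ range (l + 1), extd y i‖ ≤ ‖sumMap d y‖ := by
    intro l hl
    rw [← sumMap_eq y ⟨l, hl⟩]
    exact norm_le_pi_norm _ _
  have he : ∀ l, extd ((fun l : Fin d => m l.1) * y) l = m l * extd y l := by
    intro l
    unfold extd
    split_ifs <;> simp
  rw [sumMap_eq]
  simp only [he]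
  rw [abel]
  refine le_trans (norm_add_le _ _) ?_
  rw [add_mul, norm_mul]
  apply add_le_add (mul_le_mul (hA _) (hP _ j.2) (norm_nonneg _) hA0)
  refine le_trans (norm_sum_le _ _) (le_trans ?_
    (mul_le_mul_of_nonneg_right (hV j.1) (norm_nonneg _)))
  rw [Finset.sum_mul]
  apply Finset.sum_le_sum
  intro l hl
  rw [norm_mul]
  have := Finset.mem_range.mp hl
  have := j.2
  exact mul_le_mul_of_nonneg_left (hP l (by omega)) (norm_nonneg _)

lemma le_norm_Mul (hd : 1 ≤ d) : (d : ℝ) ≤ ‖Mul d (fun l => (-1) ^ l.1)‖ := by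
  let y : Fin d → ℂ := fun l => (-1) ^ l.1
  have h1 : ‖sumMap d y‖ ≤ 1 := by
    rw [pi_norm_le_iff_of_nonneg zero_le_one]
    intro j
    rw [sumMap_eq]
    have : ∑ l ∈ range (j.1 + 1), extd y l = ∑ l ∈ range (j.1 + 1), (-1 : ℂ) ^ l := by
      apply Finset.sum_congr rfl
      intro l hl
      have := Finset.mem_range.mp hl
      have := j.2
      simp only [extd, y]
      rw [dif_pos (by omega)]
    rw [this, neg_one_geom_sum]
    split_ifs <;> simp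
  have h2 := (Mul d y).le_opNorm (sumMap d y)
  rw [Mul_apply] at h2
  have h3 := norm_le_pi_norm (sumMap d (y * y)) ⟨d - 1, by omega⟩
  have h4 : sumMap d (y * y) ⟨d - 1, by omega⟩ = d := by
    rw [sumMap_eq]
    have : ∑ l ∈ range (d - 1 + 1), extd (y * y) l = ∑ _l ∈ range (d - 1 + 1), (1 : ℂ) := by
      apply Finset.sum_congr rfl
      intro l hl
      have := Finset.mem_range.mp hl
      simp only [extd, y]
      rw [dif_pos (by omega), Pi.mul_apply, ← mul_pow]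
      simp
    rw [this, Nat.sub_add_cancel hd]
    simp
  rw [h4, Complex.norm_natCast] at h3
  have h5 := mul_le_of_le_one_right (norm_nonneg (Mul d y)) h1
  linarith

theorem lower (hd : 1 ≤ d) : ∃ T : (Fin d → ℂ) →L[ℂ] (Fin d → ℂ), StrongKreiss T 32 ∧
    ∃ n : ℕ, 1 ≤ n ∧ (d : ℝ) ≤ ‖T ^ n‖ := by
  let v : Fin d → ℂ := fun l => lam l.1
  have key : ∀ z : ℂ, 1 < ‖z‖ → z ∈ resolventSet ℂ (Mul d v) ∧
      resolvent (Mul d v) z = Mul d (fun l => (z - lam l.1)⁻¹) := by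
    intro z hz
    have hne : ∀ l, z - lam l ≠ 0 := by
      intro l h
      rw [sub_eq_zero.mp h, norm_lam] at hz
      exact lt_irrefl _ hz
    have e : algebraMap ℂ _ z - Mul d v = Mul d (fun l => z - lam l.1) := by
      rw [← (Mul d).commutes, ← map_sub]
      rfl
    have i1 : (algebraMap ℂ _ z - Mul d v) * Mul d (fun l => (z - lam l.1)⁻¹) = 1 := by
      rw [e, ← map_mul, ← map_one (Mul d)]
      congr 1
      funext l
      exact mul_inv_cancel₀ (hne _)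
    have i2 : Mul d (fun l => (z - lam l.1)⁻¹) * (algebraMap ℂ _ z - Mul d v) = 1 := by
      rw [e, ← map_mul, ← map_one (Mul d)]
      congr 1
      funext l
      exact inv_mul_cancel₀ (hne _)
    have hmem : z ∈ resolventSet ℂ (Mul d v) :=
      spectrum.mem_resolventSet_of_left_right_inverse i1 i2
    exact ⟨hmem, left_inv_eq_right_inv (Ring.inverse_mul_cancel _ hmem) i1⟩
  refine ⟨Mul d v, ⟨?_, ?_⟩, 3 ^ ex d, Nat.one_le_pow _ _ (by norm_num), ?_⟩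
  · intro z hz
    rw [mem_closedBall_zero_iff]
    by_contra h
    exact hz (key z (not_le.mp h)).1
  · intro k hk z hz
    obtain ⟨k, rfl⟩ : ∃ j, k = j + 1 := ⟨k - 1, by omega⟩
    have hz0 : (0 : ℝ) < ‖z‖ := by linarith
    have hzc : ((‖z‖ : ℝ) : ℂ) ≠ 0 := by exact_mod_cast hz0.ne'
    have hζ : ‖z / (‖z‖ : ℂ)‖ = 1 := by
      rw [norm_div, Complex.norm_real, norm_norm, div_self hz0.ne']
    have hzz : ((‖z‖ : ℝ) : ℂ) * (z / (‖z‖ : ℂ)) = z := by field_simp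
    obtain ⟨h1, h2⟩ := mult_var lam norm_lam eps_pos eps_quarter eps_sq ‖z‖ hz _ hζ k
    rw [hzz] at h1 h2
    have h3 := norm_Mul_le (d := d) (fun l => (((‖z‖ - 1 : ℝ) : ℂ) * (z - lam l)⁻¹) ^ (k + 1))
      1 31 zero_le_one (by norm_num) h1 h2
    have hs : 0 < ‖z‖ - 1 := by linarith
    have e : Mul d (fun l : Fin d => (((‖z‖ - 1 : ℝ) : ℂ) * (z - lam l.1)⁻¹) ^ (k + 1))
        = ((‖z‖ - 1 : ℝ) : ℂ) ^ (k + 1) • resolvent (Mul d v) z ^ (k + 1) := by
      rw [(key z hz).2, ← map_pow, ← map_smul]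
      congr 1
      funext l
      simp [mul_pow]
    rw [e, norm_smul, norm_pow, Complex.norm_real, Real.norm_of_nonneg hs.le] at h3
    rw [le_div_iff₀ (by positivity)]
    linarith
  · rw [← map_pow]
    have : v ^ 3 ^ ex d = fun l : Fin d => (-1) ^ l.1 := by
      funext l
      exact lam_pow l.1 d l.2.le
    rw [this]
    exact le_norm_Mul hd

end operator

theorem one_le_of_admissible (θ : ℝ) (h : Admissible θ) : 1 ≤ θ := by
  by_contra hlt
  have hp : 0 < 1 - θ := by linarith [not_le.mp hlt]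
  obtain ⟨C, hC⟩ := h.2 32 (by norm_num)
  have h2 : Filter.Tendsto (fun d : ℕ => (d : ℝ) ^ (1 - θ)) Filter.atTop Filter.atTop :=
    (tendsto_rpow_atTop hp).comp tendsto_natCast_atTop_atTop
  obtain ⟨d, hd1, hd2⟩ := ((h2.eventually_gt_atTop C).and (Filter.eventually_ge_atTop 1)).exists
  obtain ⟨T, hT, n, hn, hn'⟩ := lower hd2
  have h3 := hC d hd2 (Fin d → ℂ) (by simp) T hT n hn
  have hd0 : (0 : ℝ) < d := by exact_mod_cast hd2
  have h4 : (d : ℝ) ^ (1 - θ) * (d : ℝ) ^ θ = d := by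
    rw [← Real.rpow_add hd0, sub_add_cancel, Real.rpow_one]
  have h5 : 0 < (d : ℝ) ^ θ := Real.rpow_pos_of_pos hd0 _
  nlinarith

end Pool.Agent.H178Z.SK
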