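import Pool.Agent.H178Z.SKDefs

namespace Pool.Agent.H178Z.SK

open Finset Polynomial

lemma var_nozero (g g' : ℝ → ℝ) (hg : ∀ t, HasDerivAt g (g' t) t) (hc : Continuous g') (B : ℝ)
    (hB : ∀ t, |g t| ≤ B) (a b : ℝ) (hab : a ≤ b) (h : ∀ t ∈ Set.Ioo a b, g' t ≠ 0) :
    ∫ t in a..b, |g' t| ≤ 2 * B := by
  have hint : ∫ t in a..b, g' t = g b - g a :=
    intervalIntegral.integral_eq_sub_of_hasDerivAt (fun t _ => hg t) (hc.intervalIntegrable a b)
  have h1 := abs_le.mp (hB a)
  have h2 := abs_le.mp (hB b)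
  have hsign : (∀ t ∈ Set.Ioo a b, 0 < g' t) ∨ (∀ t ∈ Set.Ioo a b, g' t < 0) := by
    by_contra hcon
    push Not at hcon
    obtain ⟨⟨s, hs, hs'⟩, ⟨t, ht, ht'⟩⟩ := hcon
    obtain ⟨x, hx, hx'⟩ := isPreconnected_Ioo.intermediate_value hs ht hc.continuousOn
      (show (0 : ℝ) ∈ Set.Icc (g' s) (g' t) from ⟨hs', ht'⟩)
    exact h x hx hx'
  rcases hsign with hs | hs
  · have : ∫ t in a..b, |g' t| = ∫ t in a..b, g' t := by
      rw [intervalIntegral.integral_of_le hab, intervalIntegral.integral_of_le hab,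
        MeasureTheory.integral_Ioc_eq_integral_Ioo, MeasureTheory.integral_Ioc_eq_integral_Ioo]
      exact MeasureTheory.setIntegral_congr_fun measurableSet_Ioo
        fun t ht => abs_of_pos (hs t ht)
    rw [this, hint]
    linarith
  · have : ∫ t in a..b, |g' t| = ∫ t in a..b, - g' t := by
      rw [intervalIntegral.integral_of_le hab, intervalIntegral.integral_of_le hab,
        MeasureTheory.integral_Ioc_eq_integral_Ioo, MeasureTheory.integral_Ioc_eq_integral_Ioo]
      exact MeasureTheory.setIntegral_congr_fun measurableSet_Ioo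
        fun t ht => abs_of_neg (hs t ht)
    rw [this, intervalIntegral.integral_neg, hint]
    linarith

lemma var_zeros (g g' : ℝ → ℝ) (hg : ∀ t, HasDerivAt g (g' t) t) (hc : Continuous g') (B : ℝ)
    (hB : ∀ t, |g t| ≤ B) (a : ℝ) (Z : Finset ℝ) :
    ∀ b, a ≤ b → (∀ t ∈ Set.Ioo a b, g' t = 0 → t ∈ Z) →
      ∫ t in a..b, |g' t| ≤ 2 * B * (Z.card + 1) := by
  have hB0 : 0 ≤ B := le_trans (abs_nonneg _) (hB 0)
  induction Z using Finset.induction_on_max with
  | empty =>
    intro b hab h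
    have := var_nozero g g' hg hc B hB a b hab fun t ht h0 => by simpa using h t ht h0
    simpa using this
  | insert c s hcs ih =>
    intro b hab h
    have hcard : ((insert c s).card : ℝ) = s.card + 1 := by
      rw [Finset.card_insert_of_notMem (fun hh => lt_irrefl _ (hcs c hh))]
      push_cast
      ring
    rw [hcard]
    by_cases hc1 : c ∈ Set.Ioo a b
    · have i1 := ih c hc1.1.le (fun t ht h0 => by
        have := h t ⟨ht.1, lt_trans ht.2 hc1.2⟩ h0
        rcases Finset.mem_insert.mp this with h' | h'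
        · exact absurd h' ht.2.ne
        · exact h')
      have i2 := var_nozero g g' hg hc B hB c b hc1.2.le (fun t ht h0 => by
        have := h t ⟨lt_trans hc1.1 ht.1, ht.2⟩ h0
        rcases Finset.mem_insert.mp this with h' | h'
        · exact absurd h' ht.1.ne'
        · exact lt_asymm (hcs t h') ht.1)
      rw [← intervalIntegral.integral_add_adjacent_intervals (b := c)
        (hc.abs.intervalIntegrable a c) (hc.abs.intervalIntegrable c b)]
      linarith
    · have i1 := ih b hab (fun t ht h0 => by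
        rcases Finset.mem_insert.mp (h t ht h0) with h' | h'
        · exact absurd (h' ▸ ht) hc1
        · exact h')
      linarith

lemma exists_sharp (P : ℂ[X]) (D : ℕ) (h : P.natDegree ≤ D) (r : ℝ) :
    ∃ P' : ℂ[X], P'.natDegree ≤ D ∧
      ∀ z : ℂ, ‖z‖ = r → P'.eval z = z ^ D * (starRingEnd ℂ) (P.eval z) := by
  refine ⟨∑ j ∈ range (D + 1), monomial (D - j) ((starRingEnd ℂ) (P.coeff j) * ((r : ℂ) ^ 2) ^ j),
    ?_, ?_⟩
  · apply natDegree_sum_le_of_forall_le
    intro j _
    exact le_trans (natDegree_monomial_le _) (Nat.sub_le _ _)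
  · intro z hz
    rw [eval_finsetSum, eval_eq_sum_range' (Nat.lt_succ_of_le h), map_sum, Finset.mul_sum]
    apply Finset.sum_congr rfl
    intro j hj
    have hj' : j ≤ D := Nat.lt_succ_iff.mp (Finset.mem_range.mp hj)
    have h1 : (r : ℂ) ^ 2 = z * (starRingEnd ℂ) z := by
      rw [Complex.mul_conj, Complex.normSq_eq_norm_sq, hz]
      push_cast
      ring
    have h2 : z ^ D = z ^ j * z ^ (D - j) := by
      rw [← pow_add, Nat.add_sub_cancel' hj']
    rw [eval_monomial, h1, h2, map_mul, map_pow]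
    ring

lemma re_var (φ φ' : ℂ → ℂ) (r : ℝ) (hr : 0 < r) (hφ : ∀ z, ‖z‖ = r → HasDerivAt φ (φ' z) z)
    (hc : Continuous fun θ => φ' (circleMap 0 r θ)) (u v : ℂ[X]) (D : ℕ)
    (hu : u.natDegree ≤ D) (hv : v.natDegree ≤ D) (hv0 : ∀ z : ℂ, ‖z‖ = r → v.eval z ≠ 0)
    (huv : ∀ z : ℂ, ‖z‖ = r → u.eval z = v.eval z * φ' z) (B : ℝ)
    (hB : ∀ z : ℂ, ‖z‖ = r → ‖φ z‖ ≤ B) (c : ℂ) (hc1 : ‖c‖ = 1) :
    ∫ θ in (0 : ℝ)..2 * Real.pi,
      |(c * (φ' (circleMap 0 r θ) * (circleMap 0 r θ * Complex.I))).re|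
        ≤ 2 * B * (2 * (D + 1) + 1) := by
  classical
  have hn : ∀ θ, ‖circleMap 0 r θ‖ = r := fun θ => by
    rw [norm_circleMap_zero, abs_of_pos hr]
  have hB0 : 0 ≤ B := le_trans (norm_nonneg _) (hB _ (hn 0))
  let g : ℝ → ℝ := fun θ => (c * φ (circleMap 0 r θ)).re
  let g' : ℝ → ℝ := fun θ => (c * (φ' (circleMap 0 r θ) * (circleMap 0 r θ * Complex.I))).re
  have hg : ∀ θ, HasDerivAt g (g' θ) θ := by
    intro θ
    have h1 : HasDerivAt (fun θ => φ (circleMap 0 r θ))
        (φ' (circleMap 0 r θ) * (circleMap 0 r θ * Complex.I)) θ :=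
      (hφ _ (hn θ)).comp θ (hasDerivAt_circleMap 0 r θ)
    exact Complex.reCLM.hasFDerivAt.comp_hasDerivAt θ (h1.const_mul c)
  have hg'c : Continuous g' := by
    have := continuous_circleMap 0 r
    exact Complex.continuous_re.comp
      (continuous_const.mul (hc.mul (this.mul continuous_const)))
  have hgB : ∀ θ, |g θ| ≤ B := by
    intro θ
    refine le_trans (Complex.abs_re_le_norm _) ?_
    rw [norm_mul, hc1, one_mul]
    exact hB _ (hn θ)
  let A : ℂ[X] := C (c * Complex.I) * (X * u)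
  have hA : A.natDegree ≤ D + 1 := by
    refine le_trans (natDegree_C_mul_le _ _) (le_trans natDegree_mul_le ?_)
    have := natDegree_X_le (R := ℂ)
    omega
  obtain ⟨A', hA'1, hA'2⟩ := exists_sharp A (D + 1) hA r
  obtain ⟨v', hv'1, hv'2⟩ := exists_sharp v (D + 1) (by omega) r
  let W : ℂ[X] := A * v' + A' * v
  have hW : W.natDegree ≤ 2 * (D + 1) := by
    refine le_trans (natDegree_add_le _ _) (max_le ?_ ?_)
    · refine le_trans natDegree_mul_le ?_
      omega
    · refine le_trans natDegree_mul_le ?_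
      omega
  have hWe : ∀ θ, W.eval (circleMap 0 r θ) = 0 ↔ g' θ = 0 := by
    intro θ
    set z := circleMap 0 r θ with hz
    have hz0 : z ≠ 0 := circleMap_ne_center hr.ne'
    have hAe : A.eval z = v.eval z * (c * (φ' z * (z * Complex.I))) := by
      simp only [A, eval_mul, eval_C, eval_X, huv z (hn θ)]
      ring
    have e : W.eval z = z ^ (D + 1) * (v.eval z * (starRingEnd ℂ) (v.eval z))
        * ((2 * g' θ : ℝ) : ℂ) := by
      simp only [W, eval_add, eval_mul, hA'2 z (hn θ), hv'2 z (hn θ), hAe, g']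
      rw [← Complex.add_conj, map_mul (starRingEnd ℂ) (v.eval z)]
      ring
    have hv1 := hv0 z (hn θ)
    have hv2 : (starRingEnd ℂ) (v.eval z) ≠ 0 := by simpa using hv1
    rw [e]
    simp [hz0, hv1]
  by_cases hW0 : W = 0
  · have : ∀ θ, g' θ = 0 := fun θ => (hWe θ).1 (by simp [hW0])
    show ∫ θ in (0 : ℝ)..2 * Real.pi, |g' θ| ≤ _
    simp only [this, abs_zero, intervalIntegral.integral_zero]
    positivity
  · let S : Set ℝ := {θ | θ ∈ Set.Ioo 0 (2 * Real.pi) ∧ g' θ = 0}
    have hinj : Set.InjOn (circleMap 0 r) S :=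
      (injOn_circleMap_of_abs_sub_le' (a := 0) (b := 2 * Real.pi) hr.ne' (by simp)).mono
        fun θ hθ => Set.mem_Ico.mpr ⟨hθ.1.1.le, hθ.1.2⟩
    have hmaps : ∀ θ ∈ S, circleMap 0 r θ ∈ W.roots.toFinset := by
      intro θ hθ
      rw [Multiset.mem_toFinset, mem_roots hW0]
      exact (hWe θ).2 hθ.2
    have hfin : S.Finite := by
      apply Set.Finite.of_finite_image _ hinj
      apply W.roots.toFinset.finite_toSet.subset
      exact Set.image_subset_iff.mpr fun θ hθ => hmaps θ hθ
    have hcard : hfin.toFinset.card ≤ 2 * (D + 1) := by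
      refine le_trans (Finset.card_le_card_of_injOn (circleMap 0 r) ?_ ?_)
        (le_trans (Multiset.toFinset_card_le _) (le_trans (card_roots' W) hW))
      · intro θ hθ
        exact hmaps θ (by simpa using hθ)
      · simpa using hinj
    refine le_trans (var_zeros g g' hg hg'c B hgB 0 hfin.toFinset (2 * Real.pi)
      (by positivity) fun t ht h0 => ?_) ?_
    · rw [Set.Finite.mem_toFinset]
      exact ⟨ht, h0⟩
    · apply mul_le_mul_of_nonneg_left _ (by positivity)
      have : (hfin.toFinset.card : ℝ) ≤ ((2 * (D + 1) : ℕ) : ℝ) := by exact_mod_cast hcard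
      push_cast at this
      linarith

lemma length_bound (φ φ' : ℂ → ℂ) (r : ℝ) (hr : 0 < r)
    (hφ : ∀ z, ‖z‖ = r → HasDerivAt φ (φ' z) z)
    (hc : Continuous fun θ => φ' (circleMap 0 r θ)) (u v : ℂ[X]) (D : ℕ)
    (hu : u.natDegree ≤ D) (hv : v.natDegree ≤ D) (hv0 : ∀ z : ℂ, ‖z‖ = r → v.eval z ≠ 0)
    (huv : ∀ z : ℂ, ‖z‖ = r → u.eval z = v.eval z * φ' z) (B : ℝ)
    (hB : ∀ z : ℂ, ‖z‖ = r → ‖φ z‖ ≤ B) :
    ∫ θ in (0 : ℝ)..2 * Real.pi, ‖φ' (circleMap 0 r θ) * (circleMap 0 r θ * Complex.I)‖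
        ≤ 4 * B * (2 * (D + 1) + 1) := by
  have h1 := re_var φ φ' r hr hφ hc u v D hu hv hv0 huv B hB 1 norm_one
  have h2 := re_var φ φ' r hr hφ hc u v D hu hv hv0 huv B hB (-Complex.I) (by simp)
  have hG : Continuous fun θ => φ' (circleMap 0 r θ) * (circleMap 0 r θ * Complex.I) :=
    hc.mul ((continuous_circleMap 0 r).mul continuous_const)
  have c1 : Continuous fun θ =>
      |(1 * (φ' (circleMap 0 r θ) * (circleMap 0 r θ * Complex.I))).re| :=
    (Complex.continuous_re.comp (continuous_const.mul hG)).abs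
  have c2 : Continuous fun θ =>
      |(-Complex.I * (φ' (circleMap 0 r θ) * (circleMap 0 r θ * Complex.I))).re| :=
    (Complex.continuous_re.comp (continuous_const.mul hG)).abs
  have h3 := intervalIntegral.integral_mono_on (μ := MeasureTheory.volume) (a := 0)
    (b := 2 * Real.pi) (by positivity) (hG.norm.intervalIntegrable _ _)
    ((c1.add c2).intervalIntegrable _ _) (fun θ _ => by
      simp only [Pi.add_apply]
      generalize φ' (circleMap 0 r θ) * (circleMap 0 r θ * Complex.I) = w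
      have := Complex.norm_le_abs_re_add_abs_im w
      simpa using this)
  simp only [Pi.add_apply] at h3
  rw [intervalIntegral.integral_add (c1.intervalIntegrable _ _) (c2.intervalIntegrable _ _)] at h3
  linarith

section algebra

variable {A : Type*} [NormedRing A] [NormedAlgebra ℂ A] [CompleteSpace A]

omit [CompleteSpace A] in
lemma res_id (a : A) (z : ℂ) (hz : z ∈ resolventSet ℂ a) :
    z • resolvent a z = 1 + a * resolvent a z := by
  have h : (algebraMap ℂ A z - a) * resolvent a z = 1 := Ring.mul_inverse_cancel _ hz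
  rw [sub_mul, ← Algebra.smul_def] at h
  rw [← h]
  abel

lemma cauchy (a : A) (M : ℝ) (h1 : ∀ z : ℂ, 1 < ‖z‖ → z ∈ resolventSet ℂ a)
    (h2 : ∀ z : ℂ, 1 < ‖z‖ → ‖resolvent a z‖ ≤ M / (‖z‖ - 1)) (r : ℝ) (hr : 1 < r) (n : ℕ) :
    ∀ Λ : A →L[ℂ] ℂ, (∮ z in C(0, r), z ^ n * Λ (resolvent a z))
      = 2 * Real.pi * Complex.I * Λ (a ^ n) := by
  have hdiff : ∀ (Λ : A →L[ℂ] ℂ) (z : ℂ), 1 < ‖z‖ →
      DifferentiableAt ℂ (fun z => Λ (resolvent a z)) z := fun Λ z hz =>
    Λ.differentiableAt.comp z (spectrum.hasDerivAt_resolvent_const_left (h1 z hz)).differentiableAt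
  have hcont : ∀ (Λ : A →L[ℂ] ℂ) (ρ : ℝ), 1 < ρ →
      ContinuousOn (fun z : ℂ => Λ (resolvent a z)) (Metric.sphere 0 ρ) := fun Λ ρ hρ z hz =>
    (hdiff Λ z (by rw [mem_sphere_zero_iff_norm.mp hz]; exact hρ)).continuousAt.continuousWithinAt
  induction n with
  | zero =>
    intro Λ
    simp only [pow_zero, one_mul]
    let Λ' : A →L[ℂ] ℂ := Λ.comp (ContinuousLinearMap.mul ℂ A a)
    have hb : ∀ ρ : ℝ, r ≤ ρ → ‖(∮ z in C(0, r), Λ (resolvent a z))
        - 2 * Real.pi * Complex.I * Λ 1‖ ≤ 2 * Real.pi * (‖Λ'‖ * M) / (ρ - 1) := by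
      intro ρ hρ
      have hρ1 : 1 < ρ := by linarith
      have hρ0 : 0 < ρ := by linarith
      have e1 : (∮ z in C(0, ρ), Λ (resolvent a z)) = ∮ z in C(0, r), Λ (resolvent a z) := by
        apply Complex.circleIntegral_eq_of_differentiable_on_annulus_off_countable (by linarith)
          hρ Set.countable_empty
        · intro z hz
          have : r ≤ ‖z‖ := by simpa using hz.2
          exact (hdiff Λ z (by linarith)).continuousAt.continuousWithinAt
        · intro z hz
          have : r < ‖z‖ := by simpa using hz.1.2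
          exact hdiff Λ z (by linarith)
      have hinv : ContinuousOn (fun z : ℂ => z⁻¹) (Metric.sphere 0 ρ) := by
        apply continuousOn_inv₀.mono
        intro z hz h0
        rw [mem_sphere_zero_iff_norm, Set.mem_singleton_iff.mp h0, norm_zero] at hz
        linarith
      have e2 : (∮ z in C(0, ρ), Λ (resolvent a z))
          = ∮ z in C(0, ρ), (Λ 1 * (z - 0)⁻¹ + z⁻¹ * Λ' (resolvent a z)) := by
        apply circleIntegral.integral_congr hρ0.le
        intro z hz
        have hz' : ‖z‖ = ρ := mem_sphere_zero_iff_norm.mp hz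
        have hz0 : z ≠ 0 := by
          intro h
          rw [h, norm_zero] at hz'
          linarith
        have h3 := congrArg Λ (res_id a z (h1 z (by linarith)))
        rw [map_smul, map_add, smul_eq_mul] at h3
        show Λ (resolvent a z) = Λ 1 * (z - 0)⁻¹ + z⁻¹ * Λ (a * resolvent a z)
        rw [sub_zero]
        field_simp
        rw [← h3, mul_comm]
      have i1 : CircleIntegrable (fun z : ℂ => Λ 1 * (z - 0)⁻¹) 0 ρ := by
        apply ContinuousOn.circleIntegrable hρ0.le
        simp only [sub_zero]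
        exact continuousOn_const.mul hinv
      have i2 : CircleIntegrable (fun z : ℂ => z⁻¹ * Λ' (resolvent a z)) 0 ρ :=
        ContinuousOn.circleIntegrable hρ0.le (hinv.mul (hcont Λ' ρ hρ1))
      rw [← e1, e2, circleIntegral.integral_add i1 i2, circleIntegral.integral_const_mul,
        circleIntegral.integral_sub_center_inv 0 hρ0.ne', mul_comm (Λ 1), add_sub_cancel_left]
      refine le_trans (circleIntegral.norm_integral_le_of_norm_le_const (C := ρ⁻¹ *
        (‖Λ'‖ * (M / (ρ - 1)))) hρ0.le ?_) (le_of_eq ?_)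
      · intro z hz
        have hz' : ‖z‖ = ρ := mem_sphere_zero_iff_norm.mp hz
        rw [norm_mul, norm_inv, hz']
        apply mul_le_mul_of_nonneg_left _ (by positivity)
        refine le_trans (Λ'.le_opNorm _) (mul_le_mul_of_nonneg_left ?_ (norm_nonneg _))
        have := h2 z (by linarith)
        rwa [hz'] at this
      · field_simp
    have ht : Filter.Tendsto (fun ρ : ℝ => 2 * Real.pi * (‖Λ'‖ * M) / (ρ - 1)) Filter.atTop
        (nhds 0) :=
      Filter.Tendsto.div_atTop tendsto_const_nhds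
        (Filter.tendsto_atTop_add_const_right _ (-1) Filter.tendsto_id)
    have h0 := ge_of_tendsto ht ((Filter.eventually_ge_atTop r).mono hb)
    exact sub_eq_zero.mp (norm_le_zero_iff.mp h0)
  | succ n ih =>
    intro Λ
    let Λ' : A →L[ℂ] ℂ := Λ.comp (ContinuousLinearMap.mul ℂ A a)
    have hr0 : 0 < r := by linarith
    have e2 : (∮ z in C(0, r), z ^ (n + 1) * Λ (resolvent a z))
        = ∮ z in C(0, r), (Λ 1 * (z - 0) ^ (n : ℤ) + z ^ n * Λ' (resolvent a z)) := by
      apply circleIntegral.integral_congr hr0.le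
      intro z hz
      have hz' : ‖z‖ = r := mem_sphere_zero_iff_norm.mp hz
      have h3 := congrArg Λ (res_id a z (h1 z (by linarith)))
      rw [map_smul, map_add, smul_eq_mul] at h3
      show z ^ (n + 1) * Λ (resolvent a z)
        = Λ 1 * (z - 0) ^ (n : ℤ) + z ^ n * Λ (a * resolvent a z)
      rw [sub_zero, zpow_natCast, pow_succ, mul_assoc, h3]
      ring
    have i1 : CircleIntegrable (fun z : ℂ => Λ 1 * (z - 0) ^ (n : ℤ)) 0 r := by
      apply ContinuousOn.circleIntegrable hr0.le
      simp only [sub_zero, zpow_natCast]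
      fun_prop
    have i2 : CircleIntegrable (fun z : ℂ => z ^ n * Λ' (resolvent a z)) 0 r :=
      ContinuousOn.circleIntegrable hr0.le
        ((continuous_pow n).continuousOn.mul (hcont Λ' r hr))
    rw [e2, circleIntegral.integral_add i1 i2, circleIntegral.integral_const_mul,
      circleIntegral.integral_sub_zpow_of_ne (by omega), ih Λ', mul_zero, zero_add, pow_succ']
    rfl

omit [CompleteSpace A] in
lemma good_poly (a : A) (q : ℂ[X]) (hq : q ≠ 0) (ha : aeval a q = 0) :
    ∃ p : ℂ[X], p.natDegree ≤ q.natDegree ∧ aeval a p = 0 ∧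
      ∀ z ∈ resolventSet ℂ a, p.eval z ≠ 0 := by
  have hint : IsIntegral ℂ a := IsAlgebraic.isIntegral ⟨q, hq, ha⟩
  refine ⟨minpoly ℂ a, natDegree_le_natDegree (minpoly.degree_le_of_ne_zero ℂ a hq ha),
    minpoly.aeval ℂ a, fun z hz h0 => ?_⟩
  obtain ⟨p, hp⟩ := dvd_iff_isRoot.mpr (show IsRoot (minpoly ℂ a) z from h0)
  have hp0 : p ≠ 0 := by
    intro h
    rw [h, mul_zero] at hp
    exact minpoly.ne_zero hint hp
  have h1 : (a - algebraMap ℂ A z) * aeval a p = 0 := by
    have := minpoly.aeval ℂ a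
    rw [hp, map_mul] at this
    simpa using this
  have hu : IsUnit (a - algebraMap ℂ A z) := by
    have := IsUnit.neg (show IsUnit (algebraMap ℂ A z - a) from hz)
    rwa [neg_sub] at this
  have h2 : aeval a p = 0 := (hu.mul_right_eq_zero).1 h1
  have h3 := natDegree_le_natDegree (minpoly.degree_le_of_ne_zero ℂ a hp0 h2)
  rw [hp, natDegree_mul (X_sub_C_ne_zero z) hp0, natDegree_X_sub_C] at h3
  omega

omit [CompleteSpace A] in
lemma rational (a : A) (q : ℂ[X]) (ha : aeval a q = 0) (Λ : A →L[ℂ] ℂ) :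
    ∃ p : ℂ[X], p.natDegree ≤ q.natDegree ∧
      ∀ z ∈ resolventSet ℂ a, p.eval z = q.eval z * Λ (resolvent a z) := by
  refine ⟨∑ k ∈ range (q.natDegree + 1), ∑ i ∈ range k,
    monomial i (q.coeff k * Λ (a ^ (k - 1 - i))), ?_, ?_⟩
  · apply natDegree_sum_le_of_forall_le
    intro k hk
    apply natDegree_sum_le_of_forall_le
    intro i hi
    have := Finset.mem_range.mp hk
    have := Finset.mem_range.mp hi
    exact le_trans (natDegree_monomial_le _) (by omega)
  · intro z hz
    have h : (algebraMap ℂ A z - a) * resolvent a z = 1 := Ring.mul_inverse_cancel _ hz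
    have hk : ∀ k : ℕ, ∑ i ∈ range k, z ^ i • a ^ (k - 1 - i)
        = z ^ k • resolvent a z - a ^ k * resolvent a z := by
      intro k
      have h1 := Commute.geom_sum₂_mul (show Commute (algebraMap ℂ A z) a from Algebra.commutes z a) k
      have h2 := congrArg (· * resolvent a z) h1
      simp only [mul_assoc, h, mul_one] at h2
      simp only [Algebra.smul_def, map_pow]
      rw [h2, sub_mul]
    have h3 : ∑ k ∈ range (q.natDegree + 1), q.coeff k • (a ^ k * resolvent a z) = 0 := by
      have := congrArg (· * resolvent a z) ha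
      simp only [aeval_eq_sum_range, Finset.sum_mul, smul_mul_assoc, zero_mul] at this
      exact this
    have h4 : ∀ k : ℕ, ∑ i ∈ range k, q.coeff k * Λ (a ^ (k - 1 - i)) * z ^ i
        = q.coeff k * z ^ k * Λ (resolvent a z) - Λ (q.coeff k • (a ^ k * resolvent a z)) := by
      intro k
      have := congrArg Λ (hk k)
      simp only [map_sum, map_smul, map_sub, smul_eq_mul] at this
      rw [map_smul, smul_eq_mul, mul_assoc, ← mul_sub, ← this, Finset.mul_sum]
      apply Finset.sum_congr rfl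
      intro i _
      ring
    simp only [eval_finsetSum, eval_monomial, h4]
    rw [Finset.sum_sub_distrib, ← map_sum, h3, map_zero, sub_zero, eval_eq_sum_range,
      Finset.sum_mul]

theorem kreiss_upper (a : A) (M : ℝ) (h1 : ∀ z : ℂ, 1 < ‖z‖ → z ∈ resolventSet ℂ a)
    (h2 : ∀ z : ℂ, 1 < ‖z‖ → ‖resolvent a z‖ ≤ M / (‖z‖ - 1)) (q₀ : ℂ[X]) (hq₀ : q₀ ≠ 0)
    (ha₀ : aeval a q₀ = 0) (d : ℕ) (hd : q₀.natDegree ≤ d) (n : ℕ) (hn : 1 ≤ n) :
    ‖a ^ n‖ ≤ 4 * Real.exp 1 * M * (2 * (2 * d + 1) + 1) := by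
  obtain ⟨q, hq1, hq2, hq3⟩ := good_poly a q₀ hq₀ ha₀
  obtain ⟨Λ, hΛ1, hΛ2⟩ := exists_dual_vector'' ℂ (a ^ n)
  obtain ⟨p, hp1, hp2⟩ := rational a q hq2 Λ
  have hn0 : (0 : ℝ) < n := by exact_mod_cast hn
  set r : ℝ := 1 + 1 / n with hrdef
  have hr : 1 < r := by
    have : (0 : ℝ) < 1 / n := by positivity
    linarith
  have hr0 : 0 < r := by linarith
  have hM : 0 ≤ M := by
    have h := le_trans (norm_nonneg _) (h2 2 (by simp))
    simp only [Complex.norm_ofNat] at h
    linarith
  let φ : ℂ → ℂ := fun z => Λ (resolvent a z)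
  let φ' : ℂ → ℂ := fun z => Λ (-resolvent a z ^ 2)
  have hφ : ∀ z : ℂ, 1 < ‖z‖ → HasDerivAt φ (φ' z) z := fun z hz =>
    Λ.hasFDerivAt.comp_hasDerivAt z (spectrum.hasDerivAt_resolvent_const_left (h1 z hz))
  have hφ'c : ∀ z : ℂ, 1 < ‖z‖ → ContinuousAt φ' z := fun z hz =>
    Λ.continuous.continuousAt.comp
      ((spectrum.hasDerivAt_resolvent_const_left (h1 z hz)).continuousAt.pow 2).neg
  have hcn : ∀ θ, ‖circleMap 0 r θ‖ = r := fun θ => by
    rw [norm_circleMap_zero, abs_of_pos hr0]
  have hc : Continuous fun θ => φ' (circleMap 0 r θ) :=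
    continuous_iff_continuousAt.mpr fun θ =>
      ContinuousAt.comp (f := circleMap 0 r) (hφ'c _ (by rw [hcn]; exact hr))
        (continuous_circleMap 0 r).continuousAt
  have huv : ∀ z : ℂ, ‖z‖ = r →
      (derivative p * q - derivative q * p).eval z = (q * q).eval z * φ' z := by
    intro z hz
    have hz1 : 1 < ‖z‖ := by linarith
    have d1 : HasDerivAt (fun w => q.eval w * φ w)
        ((derivative q).eval z * φ z + q.eval z * φ' z) z :=
      (q.hasDerivAt z).mul (hφ z hz1)
    have hev : (fun w => p.eval w) =ᶠ[nhds z] fun w => q.eval w * φ w := by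
      have hopen : IsOpen {w : ℂ | 1 < ‖w‖} := isOpen_lt continuous_const continuous_norm
      filter_upwards [hopen.mem_nhds hz1] with w hw
      exact hp2 w (h1 w hw)
    have d2 := (p.hasDerivAt z).unique (d1.congr_of_eventuallyEq hev)
    simp only [eval_sub, eval_mul, d2, hp2 z (h1 z hz1), φ]
    ring
  have hdeg1 : (derivative p * q - derivative q * p).natDegree ≤ 2 * d := by
    have e1 := natDegree_derivative_le p
    have e2 := natDegree_derivative_le q
    refine le_trans (natDegree_sub_le _ _) (max_le ?_ ?_)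
    · refine le_trans natDegree_mul_le ?_
      omega
    · refine le_trans natDegree_mul_le ?_
      omega
  have hdeg2 : (q * q).natDegree ≤ 2 * d := by
    refine le_trans natDegree_mul_le ?_
    omega
  have hB : ∀ z : ℂ, ‖z‖ = r → ‖φ z‖ ≤ M * n := by
    intro z hz
    refine le_trans (Λ.le_opNorm _) (le_trans (mul_le_of_le_one_left (norm_nonneg _) hΛ1) ?_)
    refine le_trans (h2 z (by linarith)) (le_of_eq ?_)
    rw [hz, hrdef]
    field_simp
    ring
  have hL := length_bound φ φ' r hr0 (fun z hz => hφ z (by linarith)) hc _ _ (2 * d) hdeg1 hdeg2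
    (fun z hz => by
      rw [eval_mul]
      exact mul_self_ne_zero.mpr (hq3 z (h1 z (by linarith)))) huv (M * n) hB
  have hparts : (∮ z in C(0, r), (((n + 1 : ℕ) : ℂ) * (z ^ n * φ z) + z ^ (n + 1) * φ' z)) = 0 := by
    apply circleIntegral.integral_eq_zero_of_hasDerivWithinAt (f := fun z => z ^ (n + 1) * φ z)
      hr0.le
    intro z hz
    have hz' : ‖z‖ = r := mem_sphere_zero_iff_norm.mp hz
    have := (hasDerivAt_pow (n + 1) z).mul (hφ z (by linarith))
    simp only [Nat.add_sub_cancel] at this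
    rw [← mul_assoc]
    exact this.hasDerivWithinAt
  have i1 : CircleIntegrable (fun z : ℂ => ((n + 1 : ℕ) : ℂ) * (z ^ n * φ z)) 0 r := by
    apply ContinuousOn.circleIntegrable hr0.le
    intro z hz
    have hz' : ‖z‖ = r := mem_sphere_zero_iff_norm.mp hz
    exact (continuousAt_const.mul ((continuous_pow n).continuousAt.mul
      (hφ z (by linarith)).continuousAt)).continuousWithinAt
  have i2 : CircleIntegrable (fun z : ℂ => z ^ (n + 1) * φ' z) 0 r := by
    apply ContinuousOn.circleIntegrable hr0.le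
    intro z hz
    have hz' : ‖z‖ = r := mem_sphere_zero_iff_norm.mp hz
    exact ((continuous_pow (n + 1)).continuousAt.mul (hφ'c z (by linarith))).continuousWithinAt
  rw [circleIntegral.integral_add i1 i2, circleIntegral.integral_const_mul,
    cauchy a M h1 h2 r hr n Λ, hΛ2] at hparts
  have hnorm : ((n : ℝ) + 1) * (2 * Real.pi * ‖a ^ n‖)
      = ‖∮ z in C(0, r), z ^ (n + 1) * φ' z‖ := by
    rw [← neg_eq_of_add_eq_zero_right hparts, norm_neg]
    simp only [norm_mul, Complex.norm_natCast, Complex.norm_ofNat, Complex.norm_real,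
      Complex.norm_I, mul_one, Real.norm_of_nonneg Real.pi_pos.le, Complex.coe_algebraMap,
      norm_norm]
    push_cast
    ring
  have hle : ‖∮ z in C(0, r), z ^ (n + 1) * φ' z‖ ≤ r ^ (n + 1) *
      ∫ θ in (0 : ℝ)..2 * Real.pi, ‖φ' (circleMap 0 r θ) * (circleMap 0 r θ * Complex.I)‖ := by
    rw [circleIntegral, ← intervalIntegral.integral_const_mul]
    refine le_trans (intervalIntegral.norm_integral_le_integral_norm (by positivity))
      (le_of_eq ?_)
    congr 1
    funext θ
    rw [deriv_circleMap, smul_eq_mul]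
    simp only [norm_mul, norm_pow, hcn]
    ring
  have hexp : r ^ n ≤ Real.exp 1 := by
    have h3 : r ≤ Real.exp (1 / n) := by
      rw [hrdef, add_comm]
      exact Real.add_one_le_exp _
    have h4 := pow_le_pow_left₀ hr0.le h3 n
    rw [← Real.exp_nat_mul, mul_one_div_cancel hn0.ne'] at h4
    exact h4
  have hrn : r * n = n + 1 := by
    rw [hrdef]
    field_simp
  set K : ℝ := 2 * (2 * d + 1) + 1 with hK
  have hK0 : 0 ≤ K := by positivity
  push_cast at hL
  have h5 : ((n : ℝ) + 1) * (2 * Real.pi * ‖a ^ n‖) ≤ ((n : ℝ) + 1) * (4 * Real.exp 1 * M * K) := by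
    rw [hnorm]
    refine le_trans hle (le_trans (mul_le_mul_of_nonneg_left hL (by positivity)) ?_)
    have e : r ^ (n + 1) * (4 * (M * n) * K) = (r * n) * (4 * r ^ n * M * K) := by ring
    rw [e, hrn]
    gcongr
  have h6 := le_of_mul_le_mul_left h5 (by positivity)
  have h7 := Real.pi_gt_three
  have h8 := norm_nonneg (a ^ n)
  nlinarith

end algebra

theorem admissible_one : Admissible 1 := by
  refine ⟨zero_le_one, fun M hM => ⟨4 * Real.exp 1 * M * 7, ?_⟩⟩
  intro d hd X _ _ _ hX T hT n hn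
  have : CompleteSpace X := FiniteDimensional.complete ℂ X
  have h1 : ∀ z : ℂ, 1 < ‖z‖ → z ∈ resolventSet ℂ T := by
    intro z hz
    by_contra h
    have := mem_closedBall_zero_iff.mp (hT.1 h)
    linarith
  have h2 : ∀ z : ℂ, 1 < ‖z‖ → ‖resolvent T z‖ ≤ M / (‖z‖ - 1) := by
    intro z hz
    simpa using hT.2 1 le_rfl z hz
  have h3 : aeval T (LinearMap.charpoly (T : X →ₗ[ℂ] X)) = 0 := by
    have h := LinearMap.aeval_self_charpoly (T : X →ₗ[ℂ] X)
    have h' := aeval_algHom_apply (Module.End.toContinuousLinearMap (𝕜 := ℂ) X)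
      (T : X →ₗ[ℂ] X) (LinearMap.charpoly (T : X →ₗ[ℂ] X))
    rw [h, map_zero] at h'
    exact h'
  have h4 := kreiss_upper T M h1 h2 _ (LinearMap.charpoly_monic _).ne_zero h3 d
    (by rw [LinearMap.charpoly_natDegree, hX]) n hn
  refine le_trans h4 ?_
  rw [Real.rpow_one, mul_assoc (4 * Real.exp 1 * M)]
  have hd' : (1 : ℝ) ≤ d := by exact_mod_cast hd
  apply mul_le_mul_of_nonneg_left _ (by positivity)
  linarith

end Pool.Agent.H178Z.SK
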