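import Mathlib

namespace Pool.Agent.H178Z.Sokolov

open Set

/-- Upper bounds for the Cantor-Bendixson rank. -/
inductive Rk {K : Type} [TopologicalSpace K] : Ordinal.{0} → K → Prop
  | mk (α : Ordinal.{0}) (p : K) (O : Set K) (hO : IsOpen O) (hp : p ∈ O) (g : K → Ordinal.{0})
      (hg : ∀ q ∈ O, q ≠ p → g q < α) (hr : ∀ q ∈ O, q ≠ p → Rk (g q) q) : Rk α p

lemma exists_rank {K : Type} [TopologicalSpace K]
    (hs : ∀ S : Set K, S.Nonempty → ∃ x ∈ S, ∃ U : Set K, IsOpen U ∧ U ∩ S = {x}) :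
    ∃ ρ : K → Ordinal.{0}, ∀ p, ∃ O : Set K, IsOpen O ∧ p ∈ O ∧ ∀ q ∈ O, q ≠ p → ρ q < ρ p := by
  classical
  have h1 : ∀ p : K, ∃ α, Rk α p := by
    by_contra hcon
    push Not at hcon
    obtain ⟨p, hp, U, hU, hUS⟩ := hs {p | ∀ α, ¬ Rk α p} hcon
    have hpU : p ∈ U := by
      have : p ∈ U ∩ {p | ∀ α, ¬ Rk α p} := by
        rw [hUS]
        rfl
      exact this.1
    have h2 : ∀ q : K, ∃ α, q ∈ U → q ≠ p → Rk α q := by
      intro q
      by_cases hq : q ∈ U ∧ q ≠ p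
      · by_contra h3
        push Not at h3
        have : q ∈ U ∩ {p | ∀ α, ¬ Rk α p} := ⟨hq.1, fun α => (h3 α).2.2⟩
        rw [hUS] at this
        exact hq.2 this
      · exact ⟨0, fun h h' => absurd ⟨h, h'⟩ hq⟩
    choose g hg using h2
    exact hp (⨆ q, Order.succ (g q)) (Rk.mk _ p U hU hpU g
      (fun q _ _ => lt_of_lt_of_le (Order.lt_succ _)
        (Ordinal.le_iSup (fun q => Order.succ (g q)) q)) hg)
  refine ⟨fun p => sInf {α | Rk α p}, fun p => ?_⟩
  have h2 : Rk (sInf {α | Rk α p}) p := csInf_mem (h1 p)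
  generalize hα : sInf {α | Rk α p} = α at h2
  cases h2 with
  | mk _ _ O hO hp g hg hr =>
    refine ⟨O, hO, hp, fun q hq hqp => ?_⟩
    show sInf {α | Rk α q} < sInf {α | Rk α p}
    rw [hα]
    exact lt_of_le_of_lt (csInf_le' (hr q hq hqp)) (hg q hq hqp)

lemma totDisc {K : Type} [TopologicalSpace K] [T1Space K]
    (hs : ∀ S : Set K, S.Nonempty → ∃ x ∈ S, ∃ U : Set K, IsOpen U ∧ U ∩ S = {x}) :
    TotallyDisconnectedSpace K := by
  refine ⟨fun t _ ht => ?_⟩
  rcases t.eq_empty_or_nonempty with rfl | hne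
  · exact subsingleton_empty
  · obtain ⟨x, hx, U, hU, hUS⟩ := hs t hne
    have hxU : x ∈ U := by
      have : x ∈ U ∩ t := by
        rw [hUS]
        rfl
      exact this.1
    have key : ∀ y ∈ t, y = x := by
      intro y hy
      by_contra hne
      obtain ⟨z, hz1, hz2, hz3⟩ := ht U {x}ᶜ hU isOpen_compl_singleton
        (fun z hz => by
          by_cases h : z = x
          · left
            rw [h]
            exact hxU
          · right
            exact h) ⟨x, hx, hxU⟩ ⟨y, hy, hne⟩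
      have : z ∈ U ∩ t := ⟨hz2, hz1⟩
      rw [hUS] at this
      exact hz3 this
    intro a ha b hb
    rw [key a ha, key b hb]

lemma exists_closed_countable {K : Type} (M₀ : Set K) (h₀ : M₀.Countable)
    (g : (n : ℕ) → (Fin n → K) → Set K) (hg : ∀ n p, (g n p).Countable) :
    ∃ M : Set K, M.Countable ∧ M₀ ⊆ M ∧ ∀ n (p : Fin n → K), (∀ i, p i ∈ M) → g n p ⊆ M := by
  let step : Set K → Set K := fun A => A ∪ ⋃ n, ⋃ p ∈ {p : Fin n → K | ∀ i, p i ∈ A}, g n p
  have hstep : ∀ A : Set K, A.Countable → (step A).Countable := by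
    intro A hA
    refine hA.union (countable_iUnion fun n => Countable.biUnion ?_ fun p _ => hg n p)
    exact countable_pi fun _ => hA
  let S : ℕ → Set K := fun k => step^[k] M₀
  have hS : ∀ k, S (k + 1) = step (S k) := fun k => Function.iterate_succ_apply' step k M₀
  have hc : ∀ k, (S k).Countable := by
    intro k
    induction k with
    | zero => exact h₀
    | succ k ih =>
      rw [hS]
      exact hstep _ ih
  have hmono : Monotone S := monotone_nat_of_le_succ fun k => by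
    rw [hS]
    exact subset_union_left
  refine ⟨⋃ k, S k, countable_iUnion hc, subset_iUnion S 0, fun n p hp => ?_⟩
  have hp' : ∀ i, ∃ k, p i ∈ S k := fun i => mem_iUnion.mp (hp i)
  choose k hk using hp'
  obtain ⟨m, hm⟩ := (finite_range k).bddAbove
  refine subset_trans ?_ (subset_iUnion S (m + 1))
  rw [hS]
  refine subset_trans ?_ subset_union_right
  refine subset_trans ?_ (subset_iUnion _ n)
  exact subset_biUnion_of_mem (u := fun p => g n p)
    (show p ∈ {p : Fin n → K | ∀ i, p i ∈ S m} from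
      fun i => hmono (hm (mem_range_self i)) (hk i))

theorem main (K : Type) [TopologicalSpace K] [CompactSpace K] [T2Space K]
    (X : Type) [tX : TopologicalSpace X] (e : X ≃ K)
    (hs : ∀ S : Set K, S.Nonempty → ∃ x ∈ S, ∃ U : Set K, IsOpen U ∧ U ∩ S = {x})
    (ht : tX = TopologicalSpace.generateFrom
      {S : Set X | ∃ U : ℕ → Set K, (∀ n, IsOpen (U n)) ∧ S = e ⁻¹' (⋂ n, U n)})
    (F : (n : ℕ) → Set (Fin n → X)) (hF : ∀ n, IsClosed (F n)) :
    ∃ f : X → X, Continuous f ∧ (range f).Countable ∧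
      ∀ n : ℕ, ∀ x ∈ F n, (fun i => f (x i)) ∈ F n := by
  classical
  rcases isEmpty_or_nonempty X with hX | hX
  · refine ⟨id, continuous_id, ?_, fun n x hx => hx⟩
    exact (toFinite _).countable
  have : Nonempty K := hX.map e
  have := totDisc hs
  obtain ⟨ρ, hρ⟩ := exists_rank hs
  have hW : ∀ p : K, ∃ W : Set K, IsClopen W ∧ p ∈ W ∧ ∀ q ∈ W, q ≠ p → ρ q < ρ p := by
    intro p
    obtain ⟨O, hO, hp, h⟩ := hρ p
    obtain ⟨W, hW1, hW2, hW3⟩ := compact_exists_isClopen_in_isOpen hO hp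
    exact ⟨W, hW1, hW2, fun q hq => h q (hW3 hq)⟩
  choose W hW1 hW2 hW3 using hW
  have hcov : ∀ C : Set K, IsClosed C → ∃ t : Set K, t.Countable ∧ t ⊆ C ∧
      ∀ x ∈ C, ∃ q ∈ t, x ∈ W q := by
    intro C hC
    obtain ⟨t, ht1, ht2⟩ := hC.isCompact.elim_nhds_subcover W
      (fun x _ => (hW1 x).isOpen.mem_nhds (hW2 x))
    refine ⟨t, t.countable_toSet, ht1, fun x hx => ?_⟩
    simpa using ht2 hx
  choose! cov hcov1 hcov2 hcov3 using hcov
  have hopen : ∀ U : ℕ → Set K, (∀ n, IsOpen (U n)) → IsOpen (e ⁻¹' (⋂ n, U n)) := by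
    intro U hU
    rw [ht]
    exact TopologicalSpace.GenerateOpen.basic _ ⟨U, hU, rfl⟩
  have hbase : ∀ u : Set X, IsOpen u → ∀ x ∈ u, ∃ V : ℕ → Set K, (∀ m, IsOpen (V m)) ∧
      (∀ m, e x ∈ V m) ∧ ∀ y, (∀ m, e y ∈ V m) → y ∈ u := by
    intro u hu
    rw [ht] at hu
    induction hu with
    | basic s hs =>
      obtain ⟨U, hU, rfl⟩ := hs
      intro x hx
      exact ⟨U, hU, mem_iInter.mp hx, fun y hy => mem_iInter.mpr hy⟩
    | univ => exact fun x _ => ⟨fun _ => univ, fun _ => isOpen_univ, fun _ => trivial,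
        fun _ _ => trivial⟩
    | inter s t _ _ ihs iht =>
      intro x hx
      obtain ⟨V, hV1, hV2, hV3⟩ := ihs x hx.1
      obtain ⟨V', hV1', hV2', hV3'⟩ := iht x hx.2
      exact ⟨fun m => V m ∩ V' m, fun m => (hV1 m).inter (hV1' m), fun m => ⟨hV2 m, hV2' m⟩,
        fun y hy => ⟨hV3 y fun m => (hy m).1, hV3' y fun m => (hy m).2⟩⟩
    | sUnion S _ ih =>
      rintro x ⟨s, hs, hx⟩
      obtain ⟨V, hV1, hV2, hV3⟩ := ih s hs x hx
      exact ⟨V, hV1, hV2, fun y hy => ⟨s, hs, hV3 y hy⟩⟩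
  have hV : ∀ (n : ℕ) (p : Fin n → K), ∃ V : Fin n → ℕ → Set K, (∀ i m, IsOpen (V i m)) ∧
      (∀ i m, p i ∈ V i m) ∧ ((fun i => e.symm (p i)) ∉ F n →
        ∀ x : Fin n → X, (∀ i m, e (x i) ∈ V i m) → x ∉ F n) := by
    intro n p
    by_cases hp : (fun i => e.symm (p i)) ∈ F n
    · exact ⟨fun _ _ => univ, fun _ _ => isOpen_univ, fun _ _ => trivial, fun h => absurd hp h⟩
    · obtain ⟨u, hu1, hu2⟩ := isOpen_pi_iff'.mp (hF n).isOpen_compl _ hp
      choose V hV1 hV2 hV3 using fun i => hbase (u i) (hu1 i).1 _ (hu1 i).2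
      refine ⟨V, hV1, fun i m => by simpa using hV2 i m, fun _ x hx => hu2 fun i _ => ?_⟩
      exact hV3 i _ (hx i)
  choose V hV1 hV2 hV3 using hV
  have hcl : ∀ n p i m, IsClosed (W (p i) \ V n p i m) :=
    fun n p i m => (hW1 _).isClosed.sdiff (hV1 n p i m)
  obtain ⟨M, hM1, hM2, hM3⟩ := exists_closed_countable (cov univ) (hcov1 _ isClosed_univ)
    (fun n p => ⋃ i, ⋃ m, cov (W (p i) \ V n p i m))
    (fun n p => countable_iUnion fun i => countable_iUnion fun m => hcov1 _ (hcl n p i m))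
  have hmin : ∀ T : Set K, T.Nonempty → ∃ p ∈ T, ∀ q ∈ T, ¬ ρ q < ρ p := fun T hT =>
    (InvImage.wf ρ wellFounded_lt).has_min T hT
  choose! μ hμ1 hμ2 using hmin
  let T : K → Set K := fun x => {p | p ∈ M ∧ x ∈ W p}
  have hT : ∀ x, (T x).Nonempty := by
    intro x
    obtain ⟨q, hq, hx⟩ := hcov3 univ isClosed_univ x trivial
    exact ⟨q, hM2 hq, hx⟩
  refine ⟨fun x => e.symm (μ (T (e x))), ?_, ?_, ?_⟩
  · rw [continuous_def]
    intro U _
    rw [isOpen_iff_forall_mem_open]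
    intro x hx
    let s : ℕ → K := enumerateCountable hM1 (e x)
    let O : ℕ → Set K := fun m => if e x ∈ W (s m) then W (s m) else (W (s m))ᶜ
    refine ⟨e ⁻¹' (⋂ m, O m), fun y hy => ?_, hopen O fun m => ?_, ?_⟩
    · have hTT : T (e y) = T (e x) := by
        ext p
        refine and_congr_right fun hp => ?_
        obtain ⟨m, rfl⟩ := subset_range_enumerate hM1 (e x) hp
        have h1 : e y ∈ O m := mem_iInter.mp hy m
        simp only [O] at h1
        split_ifs at h1 with h2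
        · exact ⟨fun _ => h2, fun _ => h1⟩
        · exact ⟨fun h => absurd h h1, fun h => absurd h h2⟩
      show e.symm (μ (T (e y))) ∈ U
      rw [hTT]
      exact hx
    · simp only [O]
      split_ifs
      · exact (hW1 _).isOpen
      · exact (hW1 _).isClosed.isOpen_compl
    · refine mem_iInter.mpr fun m => ?_
      simp only [O]
      split_ifs with h2
      · exact h2
      · exact h2
  · refine (hM1.image e.symm).mono ?_
    rintro _ ⟨x, rfl⟩
    exact ⟨_, (hμ1 _ (hT (e x))).1, rfl⟩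
  · intro n x hx
    by_contra hcon
    let p : Fin n → K := fun i => μ (T (e (x i)))
    have hp : ∀ i, p i ∈ T (e (x i)) := fun i => hμ1 _ (hT _)
    refine hV3 n p hcon x (fun i m => ?_) hx
    by_contra hnot
    obtain ⟨q, hq1, hq2⟩ := hcov3 _ (hcl n p i m) (e (x i)) ⟨(hp i).2, hnot⟩
    have hq3 := hcov2 _ (hcl n p i m) hq1
    have hqM : q ∈ M := hM3 n p (fun i => (hp i).1)
      (mem_iUnion.mpr ⟨i, mem_iUnion.mpr ⟨m, hq1⟩⟩)
    refine hμ2 _ (hT (e (x i))) q ⟨hqM, hq2⟩ (hW3 _ q hq3.1 ?_)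
    intro h
    exact hq3.2 (h ▸ hV2 n p i m)

lemma network_of_countable {X : Type} [TopologicalSpace X] (R : Set X) (hR : R.Countable) :
    ∃ N : Set (Set X), N.Countable ∧ ∀ x ∈ R, ∀ U : Set X, IsOpen U → x ∈ U →
      ∃ A ∈ N, x ∈ A ∧ A ⊆ R ∩ U :=
  ⟨(fun x => ({x} : Set X)) '' R, hR.image _, fun x hx _ _ hU =>
    ⟨{x}, ⟨x, hx, rfl⟩, rfl, singleton_subset_iff.mpr ⟨hx, hU⟩⟩⟩

end Pool.Agent.H178Z.Sokolov
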