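import Pool.Agent.H178Z.SokolovDefs
import Pool.Agent.H178Z.Sokolov

namespace Pool.Agent.H178Z.SokDefs

lemma hasCountableNetwork_of_countable {X : Type} [TopologicalSpace X] (R : Set X)
    (hR : R.Countable) : HasCountableNetwork R := by
  have := hR.to_subtype
  refine ⟨Set.range fun x : R => ({x} : Set R), Set.countable_range _, fun U _ => ?_⟩
  refine ⟨(fun x : R => ({x} : Set R)) '' U, Set.image_subset_range _ _, ?_⟩
  simp

theorem sokolov (K : Type) [tK : TopologicalSpace K] [CompactSpace K] [T2Space K]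
    (hs : Scattered K) : @IsSokolov K (omegaTop K) := by
  intro F hF
  have ht : omegaTop K = TopologicalSpace.generateFrom
      {S : Set K | ∃ U : ℕ → Set K, (∀ n, IsOpen (U n)) ∧ S = (Equiv.refl K) ⁻¹' (⋂ n, U n)} := by
    unfold omegaTop
    congr 1
    ext S
    exact isGδ_iff_eq_iInter_nat
  obtain ⟨f, h1, h2, h3⟩ := @Sokolov.main K tK _ _ K (omegaTop K) (Equiv.refl K) hs ht F hF
  exact ⟨f, h1, @hasCountableNetwork_of_countable K (omegaTop K) _ h2, h3⟩

end Pool.Agent.H178Z.SokDefs
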