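import Mathlib

namespace Pool.Agent.H178Z.SokDefs

/-- Every nonempty subspace has an isolated point. -/
def Scattered (K : Type) [TopologicalSpace K] : Prop :=
  ∀ S : Set K, S.Nonempty → ∃ x ∈ S, ∃ U : Set K, IsOpen U ∧ U ∩ S = {x}

/-- The finite Cantor-Bendixson derivatives: `K^(0) = K`, and `K^(n+1)` is the set of points of
`K^(n)` that are not isolated in `K^(n)`. -/
def cbDeriv (K : Type) [TopologicalSpace K] : ℕ → Set K
  | 0 => Set.univ
  | n + 1 => {x | x ∈ cbDeriv K n ∧ ¬ ∃ U : Set K, IsOpen U ∧ U ∩ cbDeriv K n = {x}}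

/-- The topology of the `ω`-modification: generated by the `Gδ`-subsets of `K`. -/
@[reducible] def omegaTop (K : Type) [TopologicalSpace K] : TopologicalSpace K :=
  TopologicalSpace.generateFrom {S : Set K | IsGδ S}

/-- The subspace `R` of `X` has a countable network. -/
def HasCountableNetwork {X : Type} [TopologicalSpace X] (R : Set X) : Prop :=
  ∃ N : Set (Set R), N.Countable ∧ ∀ U : Set R, IsOpen U → ∃ N' ⊆ N, U = ⋃₀ N'

/-- Sokolov spaces. -/
def IsSokolov (X : Type) [TopologicalSpace X] : Prop :=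
  ∀ F : (n : ℕ) → Set (Fin n → X), (∀ n, IsClosed (F n)) →
    ∃ f : X → X, Continuous f ∧ HasCountableNetwork (Set.range f) ∧
      ∀ n, ∀ x ∈ F n, (fun i => f (x i)) ∈ F n

end Pool.Agent.H178Z.SokDefs
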